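import Pool.Agent.NH42.Ineq
import Pool.Agent.Y254.HK.All

/-!
# The core inequalities: assembly
-/

set_option autoImplicit false

open Finset
open scoped Classical

namespace Pool.Agent.NH42
open Pool.Agent.W904.AK Pool.Agent.W46.HD Pool.Agent.W46.HM Pool.Agent.Y244.HM
  Pool.Agent.W597.HD Pool.Agent.Y254HK

/-- The algebra of the core. -/
theorem core_algN {a h N L wT wG HX HW Q b G e : ℝ} (hb : 1 < b) (hb2 : b < 2) (hG : 0 ≤ G)
    (he : 0 ≤ e) (hwT : 0 ≤ wT) (hwG : 0 ≤ wG)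
    (hA : 2 * a - h + 3 * N + (b - 1) * HX ≤ b * Q + 4 * L + (b + G) * wT + e)
    (hB : 3 * a - (2 + b) * h + 2 * N - 5 * L + wT + (b - 1) * HW ≤
      b * HX + (2 * b - 2 + G) * wG + e)
    (hC : Q + a - 2 * h - N - L + wT + wG ≤ HW + e)
    (hQ : Q ≤ 2 * h + 2 * N - 2 * L) (h1 : wT ≤ 2 * L + e) (h2 : wT + wG ≤ 3 * L + e) :
    (b ^ 2 + 3 * b - 2) * a + (3 * b - 1 - b ^ 2) * N ≤
      (3 * b ^ 2 + 2 * b - 2) * h + (2 * b ^ 2 + 3 * b - 1 + (3 * b - 1) * G) * L +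
        20 * (G + 1) * e := by
  have mA := mul_le_mul_of_nonneg_left hA (by linarith : 0 ≤ b)
  have mB := mul_le_mul_of_nonneg_left hB (by linarith : 0 ≤ b - 1)
  have mC := mul_le_mul_of_nonneg_left hC (sq_nonneg (b - 1))
  have mQ := mul_le_mul_of_nonneg_left hQ (by linarith : 0 ≤ 2 * b - 1)
  have c2 : 0 ≤ (b - 1) * (b - 1 + G) := mul_nonneg (by linarith) (by linarith)
  have c1 : 0 ≤ G + b - (b - 1) ^ 2 := by nlinarith
  have m1 := mul_le_mul_of_nonneg_left h1 c1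
  have m2 := mul_le_mul_of_nonneg_left h2 c2
  have v1 : 0 ≤ (2 - b) * e := mul_nonneg (by linarith) he
  have v2 : 0 ≤ (4 - b ^ 2) * e := mul_nonneg (by nlinarith) he
  have v3 : 0 ≤ G * e := mul_nonneg hG he
  have v4 : 0 ≤ (2 - b) * (G * e) := mul_nonneg (by linarith) v3
  nlinarith

/-- The core inequality. -/
theorem coreN {d : ℕ} {b G : ℝ} (hb : 1 < b) (hb2 : b < 2) (hG0 : 0 ≤ G) (hE : AllN d b G) :
    CoreN d (b ^ 2 + 3 * b - 2) (3 * b - 1 - b ^ 2) (3 * b ^ 2 + 2 * b - 2)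
      (2 * b ^ 2 + 3 * b - 1 + (3 * b - 1) * G) := by
  intro ε hε
  have hBOX := Pool.Agent.Y710.HK.t_box
  have hF9 := Pool.Agent.Y290.HK.t_f9 hBOX
  set Kc : ℝ := 20 * (G + 1) * 12 with hKc
  have hKc0 : 0 ≤ Kc := by positivity
  set ε0 : ℝ := ε / (2 * (Kc + 1)) with hε0
  have hε00 : 0 < ε0 := by positivity
  obtain ⟨CG', hCG', hGe⟩ := geo_of Pool.Agent.Y721.HK.t_fa (Pool.Agent.Y37.HK.t_fb hBOX)
    (Pool.Agent.Y657.HK3.t_f3 hBOX) (Pool.Agent.Y141.HK.t_f4 hBOX) (Pool.Agent.Y290.HK.t_f6 hBOX)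
    (Pool.Agent.Y971.HK.t_f8 hBOX) hF9
    (Pool.Agent.Y297HK.t_fcA Pool.Agent.Y899.HK.t_cord Pool.Agent.Y484.HK.t_plc)
    (Pool.Agent.Y297HK.t_fcB Pool.Agent.Y899.HK.t_cord Pool.Agent.Y484.HK.t_plc) d ε0 hε00
  obtain ⟨CW, hCW, hFW⟩ := t_fwr hBOX hF9 d ε0 hε00
  set CG : ℝ := CG' + CW with hCGdef
  have hCG : 0 ≤ CG := by positivity
  obtain ⟨C0, hC0, hO⟩ := hE ε0 hε00
  refine ⟨Kc * (CG + C0), by positivity, ?_⟩
  intro n Ω _ A D hfam p hp S hsep hang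
  have hS : 0 ≤ S := SepM_nonneg hp hsep
  have hn : 1 ≤ n := hfam.pos
  have hN : 0 ≤ Real.log n := Real.log_nonneg (by exact_mod_cast hn)
  obtain ⟨Θ, iΘ, q, l1, l2, l3, s0, s1, t, t', τ, v, hc⟩ := t_cfgv Ω d n A D p S hn hp hsep hang
  have hgeo' := hGe n Ω A D hfam p S hp hS Θ iΘ q l1 l2 l3 s0 s1 t t' τ v hc.toCfgU
  have hgeo : Geo A D q l1 l2 l3 s0 s1 t t' τ v (ε0 * Real.log n + CG * (1 + S)) :=
    hgeo'.mono (by
      have : 0 ≤ CW * (1 + S) := by positivity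
      have e : CG * (1 + S) = CG' * (1 + S) + CW * (1 + S) := by rw [hCGdef]; ring
      linarith)
  have fw' := hFW n Ω A D hfam p S hp Θ iΘ q l1 l2 l3 s0 s1 t t' τ v hc.toCfgU
  have hor := hO n Ω A D hfam
  set E : ℝ := ε0 * Real.log n + CG * (1 + S) with hEdef
  set F : ℝ := ε0 * Real.log n + C0 with hFdef
  have hE0 : 0 ≤ E := by positivity
  have fw : FWR A D q l1 l2 l3 s0 s1 t t' τ v E := by
    unfold FWR at fw' ⊢
    have : 0 ≤ CG' * (1 + S) := by positivity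
    have e : CG * (1 + S) = CG' * (1 + S) + CW * (1 + S) := by rw [hCGdef]; ring
    linarith
  have hF0 : 0 ≤ F := by positivity
  obtain ⟨w1, w2, w3, w4, -, -⟩ := i_w hc hgeo
  have a1 := i_a hc hgeo hb hG0 hor
  have b1 := i_b hc hgeo fw hb hb2 hG0 hE0 hor
  have c1 := i_c hc hgeo
  have hQ := i_q hc
  set e : ℝ := 12 * (E + F) with he
  have hEF : 0 ≤ E + F := by linarith
  have he0 : 0 ≤ e := by positivity
  have k1 : (2 * b + 8) * E + F ≤ e := by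
    have := mul_nonneg (by linarith : 0 ≤ 2 - b) hE0
    linarith
  have k2 : (2 * b + 7) * E + F ≤ e := by
    have := mul_nonneg (by linarith : 0 ≤ 2 - b) hE0
    linarith
  have fin := core_algN hb hb2 hG0 he0 w1 w2 (a1.trans (by linarith)) (b1.trans (by linarith))
    (c1.trans (by linarith)) hQ (w3.trans (by linarith)) (w4.trans (by linarith))
  refine fin.trans ?_
  have h1 : 20 * (G + 1) * e = Kc * (E + F) := by
    rw [he, hKc]; ring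
  rw [h1]
  have h2 := fin_err (CG := CG) hKc0 hε hN hS hC0
  linarith

/-- The inequality of the hairbrush method. -/
theorem coreW (d : ℕ) : CoreN d 1 1 2 2 := by
  intro ε hε
  have hBOX := Pool.Agent.Y710.HK.t_box
  have hF9 := Pool.Agent.Y290.HK.t_f9 hBOX
  obtain ⟨CG, hCG, hGe⟩ := geo_of Pool.Agent.Y721.HK.t_fa (Pool.Agent.Y37.HK.t_fb hBOX)
    (Pool.Agent.Y657.HK3.t_f3 hBOX) (Pool.Agent.Y141.HK.t_f4 hBOX) (Pool.Agent.Y290.HK.t_f6 hBOX)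
    (Pool.Agent.Y971.HK.t_f8 hBOX) hF9
    (Pool.Agent.Y297HK.t_fcA Pool.Agent.Y899.HK.t_cord Pool.Agent.Y484.HK.t_plc)
    (Pool.Agent.Y297HK.t_fcB Pool.Agent.Y899.HK.t_cord Pool.Agent.Y484.HK.t_plc) d (ε / 2)
    (half_pos hε)
  refine ⟨2 * CG, by positivity, ?_⟩
  intro n Ω _ A D hfam p hp S hsep hang
  have hS : 0 ≤ S := SepM_nonneg hp hsep
  have hn : 1 ≤ n := hfam.pos
  obtain ⟨Θ, iΘ, q, l1, l2, l3, s0, s1, t, t', τ, v, hc⟩ := t_cfgv Ω d n A D p S hn hp hsep hang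
  have hgeo := hGe n Ω A D hfam p S hp hS Θ iΘ q l1 l2 l3 s0 s1 t t' τ v hc.toCfgU
  have h1 := (i_k hc hgeo).2
  linarith

end Pool.Agent.NH42
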