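import Pool.Agent.NH42.Psi
import Pool.Agent.Y275.HK.FW

/-!
# The two heights `v`, `s1` from two independent copies of `τ`, refined
-/

set_option autoImplicit false

open Finset
open scoped Classical

namespace Pool.Agent.NH42
open Pool.Agent.W904.AK Pool.Agent.W46.HD Pool.Agent.W46.HM Pool.Agent.Y244.HM
  Pool.Agent.Y254HK
open Pool.Agent.Y275.HK (lr psi_eq_log psi_le_log pz_nonneg pz_le_log pz_eq_log fw_key glue_E1
  glue_E2 glue_im_sum rep rep_spec rep_eq rep_iff loglog)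

/-- The two heights `v`, `s1` from two heights of the type of `Z`, refined. -/
def FWR {Ω : Type} {d n : ℕ} (A D : Ω → Fin d → ℝ) {Θ : Type} [Fintype Θ] (q : Θ → ℝ)
    (l1 l2 l3 : Θ → Ω) (s0 s1 t t' τ v : Θ → Fin n) (E : ℝ) : Prop :=
  H q (fun z => (l2 z, WW A D l2 l3 s0 s1 t t' τ v z, v z, s1 z)) +
      H q (fun z => (l2 z, WW A D l2 l3 s0 s1 t t' τ v z)) + 2 * Real.log n ≤
    2 * H q (fun z => (l2 z, WW A D l2 l3 s0 s1 t t' τ v z, τ z,
        (XX A D l1 l3 s0 s1 t t' z).1)) +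
    3 * wG q l1 l2 l3 s0 s1 t t' τ v + E

def S_FWR : Prop := Fact fun _ _ _ A D _ _ q l1 l2 l3 s0 s1 t t' τ v E =>
  FWR A D q l1 l2 l3 s0 s1 t t' τ v E

/-- The refined inequality. -/
theorem t_fwr (hBOX : S_BOX) (hF9 : S_F9) : S_FWR := by
  intro d ε hε
  obtain ⟨C9, hC9, H9⟩ := hF9 d (ε / 3) (by positivity)
  obtain ⟨CB, hCB, HB⟩ := hBOX 1 8 (by norm_num)
  obtain ⟨C2, hC2, hlog⟩ := loglog hCB (show 0 < ε / 3 by positivity)
  obtain ⟨C3, hC3, hlog3⟩ := loglog (show (0 : ℝ) ≤ 2 by norm_num) (show 0 < ε / 3 by positivity)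
  refine ⟨C9 + C2 + C3 + 20, by positivity, ?_⟩
  intro n Ω _ A D hfam p S hp Θ iΘ q l1 l2 l3 s0 s1 t t' τ v hc
  have hq : IsLaw q := hc.law
  have hn : 1 ≤ n := hfam.pos
  have hnr : (1 : ℝ) ≤ n := by exact_mod_cast hn
  have h9 := H9 n Ω A D hfam p S hp Θ iΘ q l1 l2 l3 s0 s1 t t' τ v hc
  show H q (fun z => (l2 z, WW A D l2 l3 s0 s1 t t' τ v z, v z, s1 z)) +
      H q (fun z => (l2 z, WW A D l2 l3 s0 s1 t t' τ v z)) + 2 * Real.log n ≤
    2 * H q (fun z => (l2 z, WW A D l2 l3 s0 s1 t t' τ v z, τ z,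
        (XX A D l1 l3 s0 s1 t t' z).1)) +
    3 * wG q l1 l2 l3 s0 s1 t t' τ v + (ε * Real.log n + (C9 + C2 + C3 + 20) * (1 + S))
  replace h9 : H q (fun z => ((v z, τ z, (WW A D l2 l3 s0 s1 t t' τ v z).1,
      (XX A D l1 l3 s0 s1 t t' z).1), s1 z)) ≤
    H q (fun z => (v z, τ z, (WW A D l2 l3 s0 s1 t t' τ v z).1,
      (XX A D l1 l3 s0 s1 t t' z).1)) + (ε / 3 * Real.log n + C9 * (1 + S)) := h9
  -- abbreviations
  obtain ⟨Y, hY⟩ : ∃ Y : Θ → ℤ, Y = fun z => YY s0 s1 t t' z := ⟨_, rfl⟩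
  obtain ⟨M, hM⟩ : ∃ M : Θ → ℤ, M = fun z => MM s0 s1 t t' τ v z := ⟨_, rfl⟩
  obtain ⟨W, hW⟩ : ∃ W : Θ → ℤ × (Fin d → ℤ), W = fun z => WW A D l2 l3 s0 s1 t t' τ v z :=
    ⟨_, rfl⟩
  obtain ⟨X, hX⟩ : ∃ X : Θ → ℤ, X = fun z => (XX A D l1 l3 s0 s1 t t' z).1 := ⟨_, rfl⟩
  obtain ⟨F, hF⟩ : ∃ F : Θ → Ω × Ω × Ω × Fin n × Fin n × Fin n × ℤ,
      F = fun z => (l1 z, l2 z, l3 z, s0 z, s1 z, v z, M z) := ⟨_, rfl⟩
  obtain ⟨w, hw⟩ : ∃ w, w = wG q l1 l2 l3 s0 s1 t t' τ v := ⟨_, rfl⟩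
  have eW : ∀ z, WW A D l2 l3 s0 s1 t t' τ v z = W z := fun z => by rw [hW]
  have eX : ∀ z, (XX A D l1 l3 s0 s1 t t' z).1 = X z := fun z => by rw [hX]
  have eM : ∀ z, MM s0 s1 t t' τ v z = M z := fun z => by rw [hM]
  simp only [eW, eX] at h9 ⊢
  rw [← hw]
  have W1 : ∀ z, (W z).1 = ((v z : ℕ) : ℤ) + M z := fun z => by rw [hW, hM]; rfl
  have X1 : ∀ z, X z = ((s1 z : ℕ) : ℤ) + Y z := fun z => by rw [hX, hY]; rfl
  have M1 : ∀ z, M z = mm (s1 z) (v z) (τ z) (Y z) := fun z => by rw [hM, hY]; rfl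
  have Y1 : ∀ z, Y z = yy (s0 z) (s1 z) (t z) (t' z) := fun z => by rw [hY]; rfl
  have hFd : ∀ x y, F x = F y → (l1 x = l1 y ∧ l2 x = l2 y ∧ l3 x = l3 y ∧ s0 x = s0 y ∧
      s1 x = s1 y ∧ v x = v y ∧ M x = M y) ∧ W x = W y := by
    intro x y h
    rw [hF] at h
    simp only [Prod.mk.injEq] at h
    obtain ⟨a1, a2, a3, a4, a5, a6, a7⟩ := h
    refine ⟨⟨a1, a2, a3, a4, a5, a6, a7⟩, ?_⟩
    rw [hW]
    simp only [WW, eM, a2, a3, a6, a7]
  -- the deficiency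
  have hwd : w = Real.log n - (H q (fun z => (F z, τ z)) - H q F) := by
    have e1 : H q (fun z => (l1 z, l2 z, l3 z, s0 z, s1 z, v z, MM s0 s1 t t' τ v z, τ z)) =
        H q (fun z => (F z, τ z)) := by
      apply H_congr hq
      · intro x y _ _ h
        rw [hF]
        simp only [Prod.mk.injEq, eM] at h ⊢
        tauto
      · intro x y _ _ h
        rw [hF] at h
        simp only [Prod.mk.injEq, eM] at h ⊢
        tauto
    have e2 : H q (fun z => (l1 z, l2 z, l3 z, s0 z, s1 z, v z, MM s0 s1 t t' τ v z)) = H q F := by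
      rw [hF]
      simp only [eM]
    rw [hw]
    unfold wG
    rw [e1, e2]
  -- the gluing
  obtain ⟨r, hr⟩ : ∃ r : Θ → Θ, r = rep F := ⟨_, rfl⟩
  have hr1 : ∀ x y, r x = r y → F x = F y := fun x y h => rep_iff F (by rwa [hr] at h)
  have hr2 : ∀ x y, F x = F y → r x = r y := fun x y h => by rw [hr]; exact rep_eq F h
  obtain ⟨g, hg⟩ : ∃ g : Θ × Θ → ℝ, g = glue q q r r := ⟨_, rfl⟩
  have hgl : IsLaw g := hg ▸ glue_law hq hq (fun _ => rfl)
  have hgs : ∀ z, g z ≠ 0 → F z.1 = F z.2 ∧ q z.1 ≠ 0 ∧ q z.2 ≠ 0 := by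
    intro z hz
    rw [hg] at hz
    obtain ⟨a1, a2, a3⟩ := glue_supp hz
    exact ⟨hr1 _ _ a1, a2, a3⟩
  have hg1 : ∀ {α : Type} (u : Θ → α), H g (fun z => u z.1) = H q u := fun u => by
    rw [hg]; exact H_glue_fst hq (fun _ => rfl) u
  have hg2 : ∀ {α : Type} (u : Θ → α), H g (fun z => u z.2) = H q u := fun u => by
    rw [hg]; exact H_glue_snd hq (fun _ => rfl) u
  -- entropy of the pair
  have a1 : H g (fun z => ((r z.1, τ z.1), (r z.2, τ z.2))) =
      H q (fun z => (F z, τ z)) + H q (fun z => (F z, τ z)) - H q F := by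
    rw [hg]
    have h1 := H_glue (p := q) (q := q) (f := r) (g := r) hq hq (fun _ => rfl)
      (u := fun z => (r z, τ z)) (v := fun z => (r z, τ z)) (Det.fst q r τ) (Det.fst q r τ)
    have h2 : H q (fun z => (r z, τ z)) = H q (fun z => (F z, τ z)) := by
      apply H_congr hq
      · intro x y _ _ h
        simp only [Prod.mk.injEq] at h ⊢
        exact ⟨hr1 _ _ h.1, h.2⟩
      · intro x y _ _ h
        simp only [Prod.mk.injEq] at h ⊢
        exact ⟨hr2 _ _ h.1, h.2⟩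
    have h3 : H q r = H q F := H_congr hq (fun x y _ _ h => hr1 _ _ h) (fun x y _ _ h => hr2 _ _ h)
    rw [h2, h3] at h1
    exact h1
  -- first submodularity
  have a2 : H g (fun z => ((r z.1, τ z.1), (r z.2, τ z.2))) +
      H g (fun z => (l2 z.1, W z.1, v z.1, s1 z.1)) ≤
      H g (fun z => F z.1) + H g (fun z => (l2 z.1, W z.1, v z.1, s1 z.1, τ z.1, τ z.2)) :=
    submod' hgl (by
      intro x y _ _ h
      obtain ⟨⟨_, b2, _, _, b5, b6, _⟩, b8⟩ := hFd _ _ h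
      simp only [Prod.mk.injEq]
      exact ⟨b2, b8, b6, b5⟩) (by
      intro x y _ _ h
      simp only [Prod.mk.injEq] at h ⊢
      tauto) (by
      intro x y hx hy h
      simp only [Prod.mk.injEq] at h ⊢
      obtain ⟨h1, h2, h3, h4, h5, h6, h7⟩ := h
      have k1 := (hgs x hx).1
      have k2 := (hgs y hy).1
      exact ⟨⟨hr2 _ _ h1, h6⟩, hr2 _ _ (k1.symm.trans (h1.trans k2)), h7⟩)
  have a3 : H g (fun z => (l2 z.1, W z.1, v z.1, s1 z.1, τ z.1, τ z.2)) ≤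
      H g (fun z => (l2 z.1, W z.1, v z.1, s1 z.1, τ z.1, τ z.2, X z.1, X z.2)) :=
    H_mono hgl (by
      intro x y _ _ h
      simp only [Prod.mk.injEq] at h ⊢
      tauto)
  have a4 : H g (fun z => (l2 z.1, W z.1, v z.1, s1 z.1, τ z.1, τ z.2, X z.1, X z.2)) +
      H g (fun z => (v z.1, τ z.1, (W z.1).1, X z.1)) ≤
      H g (fun z => (l2 z.1, W z.1, v z.1, τ z.1, τ z.2, X z.1, X z.2)) +
      H g (fun z => ((v z.1, τ z.1, (W z.1).1, X z.1), s1 z.1)) :=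
    submod' hgl (by
      intro x y _ _ h
      simp only [Prod.mk.injEq] at h ⊢
      obtain ⟨h1, h2, h3, h4, h5, h6, h7⟩ := h
      exact ⟨h3, h4, by rw [h2], h6⟩) (by
      intro x y _ _ h
      simp only [Prod.mk.injEq] at h ⊢
      tauto) (by
      intro x y _ _ h
      simp only [Prod.mk.injEq] at h ⊢
      tauto)
  have a5 := hg1 (fun z => (v z, τ z, (W z).1, X z))
  have a6 := hg1 (fun z => ((v z, τ z, (W z).1, X z), s1 z))
  have a7 := hg1 F
  have a8 := hg1 (fun z => (l2 z, W z, v z, s1 z))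
  have a9 : H g (fun z => (l2 z.1, W z.1, τ z.1, τ z.2, X z.1, X z.2)) +
      H g (fun z => (l2 z.1, W z.1)) ≤ H g (fun z => (l2 z.1, W z.1, τ z.1, X z.1)) +
      H g (fun z => (l2 z.2, W z.2, τ z.2, X z.2)) :=
    submod' hgl (by
      intro x y _ _ h
      simp only [Prod.mk.injEq] at h ⊢
      tauto) (by
      intro x y hx hy h
      have k1 := hFd _ _ (hgs x hx).1
      have k2 := hFd _ _ (hgs y hy).1
      simp only [Prod.mk.injEq] at h ⊢
      exact ⟨k1.1.2.1.trans (h.1.trans k2.1.2.1.symm), k1.2.trans (h.2.1.trans k2.2.symm)⟩) (by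
      intro x y _ _ h
      simp only [Prod.mk.injEq] at h ⊢
      tauto)
  have a10 := hg1 (fun z => (l2 z, W z, τ z, X z))
  have a11 := hg2 (fun z => (l2 z, W z, τ z, X z))
  have a12 := hg1 (fun z => (l2 z, W z))
  -- the cost of `v`
  obtain ⟨R, hR⟩ : ∃ R : Θ × Θ → ℝ, R = fun z => 6 * Real.exp
      (lr n (v z.1) (s1 z.1) (τ z.1) (τ z.2) (X z.1) (X z.2)) := ⟨_, rfl⟩
  have hlr0 : ∀ z : Θ × Θ, 0 ≤ lr n (v z.1) (s1 z.1) (τ z.1) (τ z.2) (X z.1) (X z.2) := by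
    intro z
    unfold lr
    have q1 := psi_nonneg (τ z.1).2 (v z.1).2
    have q2 := psi_nonneg (τ z.2).2 (v z.1).2
    have q3 := psi_nonneg (v z.1).2 (s1 z.1).2
    have q4 := psi_nonneg (τ z.1).2 (s1 z.1).2
    have q5 := psi_nonneg (τ z.2).2 (s1 z.1).2
    have q6 := psi_nonneg (τ z.1).2 (τ z.2).2
    have q7 := pz_nonneg n ((τ z.1 : ℕ) : ℤ) (X z.1)
    have q8 := pz_nonneg n ((τ z.2 : ℕ) : ℤ) (X z.2)
    linarith
  have hRlog : ∀ z, Real.log (R z) = Real.log 6 +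
      lr n (v z.1) (s1 z.1) (τ z.1) (τ z.2) (X z.1) (X z.2) := by
    intro z
    rw [hR]
    simp only
    rw [Real.log_mul (by norm_num) (Real.exp_pos _).ne', Real.log_exp]
  have log6 : Real.log 6 ≤ 2 := by
    have h1 : (6 : ℝ) ≤ Real.exp 2 := by
      have h2 := Real.exp_one_gt_d9
      have h3 : Real.exp 2 = Real.exp 1 * Real.exp 1 := by rw [← Real.exp_add]; norm_num
      rw [h3]
      nlinarith
    calc Real.log 6 ≤ Real.log (Real.exp 2) := Real.log_le_log (by norm_num) h1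
      _ = 2 := Real.log_exp 2
  have b1 := HB (Θ × Θ) (Ω × (ℤ × (Fin d → ℤ)) × Fin n × Fin n × ℤ × ℤ) g
    (fun z => (l2 z.1, W z.1, τ z.1, τ z.2, X z.1, X z.2)) (fun z _ => ((v z.1 : ℕ) : ℤ)) R n hn
    hgl (by
      intro z _
      have q0 := hlr0 z
      constructor
      · rw [hR]
        simp only
        have := Real.one_le_exp q0
        linarith
      · rw [hRlog]
        have hl : lr n (v z.1) (s1 z.1) (τ z.1) (τ z.2) (X z.1) (X z.2) ≤ 8 * Real.log n := by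
          unfold lr
          have q1 := psi_le_log (i := (τ z.1 : ℕ)) (j := (v z.1 : ℕ)) hn
          have q2 := psi_le_log (i := (τ z.2 : ℕ)) (j := (v z.1 : ℕ)) hn
          have q3 := psi_le_log (i := (v z.1 : ℕ)) (j := (s1 z.1 : ℕ)) hn
          have q4 := psi_le_log (i := (τ z.1 : ℕ)) (j := (s1 z.1 : ℕ)) hn
          have q5 := psi_le_log (i := (τ z.2 : ℕ)) (j := (s1 z.1 : ℕ)) hn
          have q6 := psi_le_log (i := (τ z.1 : ℕ)) (j := (τ z.2 : ℕ)) hn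
          have q7 := pz_le_log hn ((τ z.1 : ℕ) : ℤ) (X z.1)
          have q8 := pz_le_log hn ((τ z.2 : ℕ) : ℤ) (X z.2)
          linarith
        linarith)
    (by
      intro x y hx hy h i
      simp only [Prod.mk.injEq] at h
      obtain ⟨_, h2, h3, h4, h5, h6⟩ := h
      have kx := hFd _ _ (hgs x hx).1
      have ky := hFd _ _ (hgs y hy).1
      obtain ⟨⟨_, _, _, _, kx5, kx6, kx7⟩, _⟩ := kx
      obtain ⟨⟨_, _, _, _, ky5, ky6, ky7⟩, _⟩ := ky
      have key := fw_key (n := n) (v := (v x.1 : ℕ)) (s := (s1 x.1 : ℕ)) (v' := (v y.1 : ℕ))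
        (s' := (s1 y.1 : ℕ)) (τ := (τ x.1 : ℕ)) (σ := (τ x.2 : ℕ)) hn (v x.1).2 (s1 x.1).2
        (v y.1).2 (s1 y.1).2 (τ x.1).2 (τ x.2).2 (z := X x.1) (w := X x.2) (y := Y x.1)
        (u := Y x.2) (y' := Y y.1) (u' := Y y.2) (m := M x.1) (m' := M y.1)
        (X1 x.1) (by rw [X1 x.2, kx5]) (M1 x.1) (by rw [kx7, M1 x.2, kx5, kx6])
        (by rw [h5]; exact X1 y.1) (by rw [h6, X1 y.2, ky5]) (by rw [h3]; exact M1 y.1)
        (by rw [h4, ky7, M1 y.2, ky5, ky6]) (by rw [← W1 x.1, ← W1 y.1, h2])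
      rw [hR]
      simp only
      rw [← h3, ← h4, ← h5, ← h6]
      push_cast
      exact key)
  have b2 : H g (fun z => (l2 z.1, W z.1, v z.1, τ z.1, τ z.2, X z.1, X z.2)) ≤
      H g (fun z => ((l2 z.1, W z.1, τ z.1, τ z.2, X z.1, X z.2),
        (fun _ : Fin 1 => ((v z.1 : ℕ) : ℤ)))) := H_mono hgl (by
      intro x y _ _ h
      simp only [Prod.mk.injEq] at h ⊢
      obtain ⟨⟨h1, h2, h3, h4, h5, h6⟩, h7⟩ := h
      have h8 := congrFun h7 0
      simp only [Nat.cast_inj, Fin.val_inj] at h8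
      exact ⟨h1, h2, h8, h3, h4, h5, h6⟩)
  -- expectations
  have s0' : 0 ≤ S := by
    have h1 : 0 ≤ ∑ z, q z * psi n (τ z) (s1 z) :=
      Finset.sum_nonneg fun z _ => mul_nonneg (hq.nonneg z) (psi_nonneg (τ z).2 (s1 z).2)
    exact h1.trans (hc.c5.trans hc.sep_le)
  have c5 := hc.c5.trans hc.sep_le
  have c6 := hc.c6.trans hc.sep_le
  have c7 := hc.c7.trans hc.sep_le
  have cx : ∑ z, q z * pz n ((τ z : ℕ) : ℤ) (X z) ≤ S := by
    have h1 := hc.τx (fun a b c d => ((b : ℕ) : ℤ) + yy a b c d)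
    refine le_trans (le_of_eq ?_) h1
    refine Finset.sum_congr rfl fun z _ => ?_
    rw [X1 z, Y1 z]
  -- the two copies of `τ`
  have cτ : ∑ z : Θ × Θ, g z * psi n (τ z.1) (τ z.2) ≤ w + Real.log (3 + 2 * Real.log n) := by
    have h1 := psi_le_lam Θ n (im q fun z => (r z, τ z)) hn (hq.im _)
    rw [glue_im_sum q (fun z => (r z, τ z)) Prod.fst (fun z => psi n z.1.2 z.2.2)] at h1
    have h2 : lam (im q fun z => (r z, τ z)) = w := by
      unfold lam
      rw [H_im, H_im, hwd]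
      have h3 : H q (fun z => id (r z, τ z)) = H q (fun z => (F z, τ z)) := by
        apply H_congr hq
        · intro x y _ _ h
          simp only [id, Prod.mk.injEq] at h ⊢
          exact ⟨hr1 _ _ h.1, h.2⟩
        · intro x y _ _ h
          simp only [id, Prod.mk.injEq] at h ⊢
          exact ⟨hr2 _ _ h.1, h.2⟩
      have h4 : H q (fun z => (r z, τ z).1) = H q F :=
        H_congr hq (fun x y _ _ h => hr1 _ _ h) (fun x y _ _ h => hr2 _ _ h)
      rw [h3, h4]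
    rw [h2] at h1
    rw [hg]
    exact h1
  have cost : ∑ z, g z * Real.log (R z) ≤ 2 + 7 * S + (w + Real.log (3 + 2 * Real.log n)) := by
    have e0 : ∀ z, g z * Real.log (R z) = g z * Real.log 6 + g z * psi n (τ z.1) (v z.1) +
        g z * psi n (τ z.2) (v z.1) + g z * psi n (v z.1) (s1 z.1) +
        g z * psi n (τ z.1) (s1 z.1) + g z * psi n (τ z.2) (s1 z.1) +
        g z * psi n (τ z.1) (τ z.2) + g z * pz n ((τ z.1 : ℕ) : ℤ) (X z.1) +
        g z * pz n ((τ z.2 : ℕ) : ℤ) (X z.2) := by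
      intro z
      rw [hRlog]
      unfold lr
      ring
    rw [Finset.sum_congr rfl fun z _ => e0 z]
    simp only [Finset.sum_add_distrib]
    have u0 : ∑ z, g z * Real.log 6 ≤ 2 := by
      rw [← Finset.sum_mul, hgl.total, one_mul]
      exact log6
    have u1 : ∑ z, g z * psi n (τ z.1) (v z.1) ≤ S := by
      rw [hg, glue_E1 hq r (fun z => psi n (τ z) (v z))]
      exact c6
    have u2 : ∑ z, g z * psi n (τ z.2) (v z.1) ≤ S := by
      have : ∀ z, g z * psi n (τ z.2) (v z.1) = g z * psi n (τ z.2) (v z.2) := by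
        intro z
        by_cases hz : g z = 0
        · rw [hz, zero_mul, zero_mul]
        · rw [(hFd _ _ (hgs z hz).1).1.2.2.2.2.2.1]
      rw [Finset.sum_congr rfl fun z _ => this z, hg, glue_E2 hq r (fun z => psi n (τ z) (v z))]
      exact c6
    have u3 : ∑ z, g z * psi n (v z.1) (s1 z.1) ≤ S := by
      rw [hg, glue_E1 hq r (fun z => psi n (v z) (s1 z))]
      exact c7
    have u4 : ∑ z, g z * psi n (τ z.1) (s1 z.1) ≤ S := by
      rw [hg, glue_E1 hq r (fun z => psi n (τ z) (s1 z))]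
      exact c5
    have u5 : ∑ z, g z * psi n (τ z.2) (s1 z.1) ≤ S := by
      have : ∀ z, g z * psi n (τ z.2) (s1 z.1) = g z * psi n (τ z.2) (s1 z.2) := by
        intro z
        by_cases hz : g z = 0
        · rw [hz, zero_mul, zero_mul]
        · rw [(hFd _ _ (hgs z hz).1).1.2.2.2.2.1]
      rw [Finset.sum_congr rfl fun z _ => this z, hg, glue_E2 hq r (fun z => psi n (τ z) (s1 z))]
      exact c5
    have u7 : ∑ z, g z * pz n ((τ z.1 : ℕ) : ℤ) (X z.1) ≤ S := by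
      rw [hg, glue_E1 hq r (fun z => pz n ((τ z : ℕ) : ℤ) (X z))]
      exact cx
    have u8 : ∑ z, g z * pz n ((τ z.2 : ℕ) : ℤ) (X z.2) ≤ S := by
      rw [hg, glue_E2 hq r (fun z => pz n ((τ z : ℕ) : ℤ) (X z))]
      exact cx
    linarith
  have hl := hlog (Real.log n) (Real.log_nonneg hnr)
  have hl3 := hlog3 (Real.log n) (Real.log_nonneg hnr)
  have hl4 : Real.log (3 + 2 * Real.log n) ≤ 2 * (1 + Real.log (1 + Real.log n)) := by
    have hx : 0 ≤ Real.log n := Real.log_nonneg hnr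
    have e1 : Real.log (3 + 2 * Real.log n) ≤ Real.log (3 * (1 + Real.log n)) :=
      Real.log_le_log (by linarith) (by linarith)
    rw [Real.log_mul (by norm_num) (by linarith)] at e1
    have e2 : Real.log 3 ≤ 2 := by
      have h3 : (3 : ℝ) ≤ 6 := by norm_num
      exact (Real.log_le_log (by norm_num) h3).trans log6
    have e3 : 0 ≤ Real.log (1 + Real.log n) := Real.log_nonneg (by linarith)
    linarith
  rw [a1] at a2
  rw [a7, a8] at a2
  rw [a5, a6] at a4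
  rw [a10, a11, a12] at a9
  have d1 : (C9 + C2 + C3 + 20) * (1 + S) = C9 * (1 + S) + C2 + C2 * S + C3 + C3 * S + 20 +
    20 * S := by ring
  rw [d1]
  have d2 : 0 ≤ C2 * S := mul_nonneg hC2 s0'
  have d3 : 0 ≤ C3 * S := mul_nonneg hC3 s0'
  push_cast at b1
  linarith

end Pool.Agent.NH42
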