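import Pool.Agent.NH42.Core
import Pool.Agent.NH42.Ext

/-!
# The iteration
-/

set_option autoImplicit false

open Finset
open scoped Classical

namespace Pool.Agent.NH42
open Pool.Agent.W904.AK Pool.Agent.W46.HD Pool.Agent.W46.HM Pool.Agent.Y244.HM
  Pool.Agent.W597.HD Pool.Agent.Y254HK

theorem AllN.mono {d : ℕ} {b c G : ℝ} (hbc : b ≤ c) (h : AllN d b G) : AllN d c G := by
  intro ε hε
  obtain ⟨C, hC, h⟩ := h ε hε
  refine ⟨C, hC, ?_⟩
  intro n Ω _ A D hfam p hp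
  have h1 := h n Ω A D hfam p hp
  have h2 : b * hred A D p ≤ c * hred A D p := mul_le_mul_of_nonneg_right hbc (hred_nonneg hp)
  linarith

theorem hred_le {Ω : Type} [Fintype Ω] {d n : ℕ} {A D : Ω → Fin d → ℝ} {p : Ω × Fin n → ℝ}
    (hfam : IsFam n D) (hp : IsLaw p) : hred A D p ≤ (d + 1) * (1 + Real.log n) := by
  have h2 := hh_le_aa (A := A) (D := D) hp
  have h3 := aa_le hfam hp
  have h4 : mi p ≤ Real.log n := by
    unfold mi
    have e1 := H_mono hp (f := (id : Ω × Fin n → Ω × Fin n)) (g := Prod.fst)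
      (fun x y _ _ h => congrArg Prod.fst h)
    have e2 := Hlog hp
    linarith
  unfold hred
  linarith

theorem AllN_closed {d : ℕ} {m G : ℝ} (h : ∀ c : ℝ, m < c → AllN d c G) : AllN d m G := by
  intro ε hε
  set η : ℝ := ε / (2 * (d + 1)) with hη
  have hη0 : 0 < η := by positivity
  have hηd : η * (d + 1) = ε / 2 := by rw [hη]; field_simp
  obtain ⟨C, hC, h⟩ := h (m + η) (by linarith) (ε / 2) (by linarith)
  refine ⟨C + ε / 2, by positivity, ?_⟩
  intro n Ω _ A D hfam p hp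
  have h1 := h n Ω A D hfam p hp
  have h2 := hred_le (A := A) hfam hp
  have h4 : η * hred A D p ≤ η * ((d + 1) * (1 + Real.log n)) :=
    mul_le_mul_of_nonneg_left h2 hη0.le
  have h5 : η * ((d + 1) * (1 + Real.log n)) = (η * (d + 1)) * (1 + Real.log n) := by ring
  rw [h5, hηd] at h4
  have h7 : (m + η) * hred A D p = m * hred A D p + η * hred A D p := by ring
  rw [h7] at h1
  linarith

/-- Positive combinations of core inequalities. -/
theorem CoreN.add {d : ℕ} {α1 Γ1 β1 K1 α2 Γ2 β2 K2 y : ℝ} (hy : 0 ≤ y)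
    (h1 : CoreN d α1 Γ1 β1 K1) (h2 : CoreN d α2 Γ2 β2 K2) :
    CoreN d (α1 + y * α2) (Γ1 + y * Γ2) (β1 + y * β2) (K1 + y * K2) := by
  intro ε hε
  obtain ⟨C1, hC1, h1⟩ := h1 (ε / 2) (by linarith)
  obtain ⟨C2, hC2, h2⟩ := h2 (ε / (2 * (y + 1))) (by positivity)
  refine ⟨C1 + y * C2, by positivity, ?_⟩
  intro n Ω _ A D hfam p hp S hsep hang
  have hN : 0 ≤ Real.log n := Real.log_nonneg (by exact_mod_cast hfam.pos)
  have k1 := h1 n Ω A D hfam p hp S hsep hang
  have k2 := mul_le_mul_of_nonneg_left (h2 n Ω A D hfam p hp S hsep hang) hy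
  have e1 : y * (ε / (2 * (y + 1)) * Real.log n) ≤ ε / 2 * Real.log n := by
    have : y * (ε / (2 * (y + 1))) ≤ ε / 2 := by
      rw [mul_div_assoc', div_le_div_iff₀ (by positivity) (by norm_num)]
      nlinarith
    calc y * (ε / (2 * (y + 1)) * Real.log n) = y * (ε / (2 * (y + 1))) * Real.log n := by ring
      _ ≤ _ := mul_le_mul_of_nonneg_right this hN
  linarith

/-- One step of the iteration, from the core inequality. -/
theorem stepN {d : ℕ} {α Γ β K G : ℝ} (hd : 1 ≤ d) (hα : 1 ≤ α) (hΓ : 0 ≤ Γ)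
    (hK : K ≤ G * (α + Γ / d)) (h : CoreN d α Γ β K) :
    AllBN d (β / (α + Γ / d)) G := by
  have hd0 : (0 : ℝ) < d := by exact_mod_cast hd
  set M' : ℝ := α + Γ / d with hM'
  have hΓd : 0 ≤ Γ / d := by positivity
  have hM'1 : 1 ≤ M' := by rw [hM']; linarith
  have hM'0 : 0 < M' := by linarith
  intro ε hε
  obtain ⟨C, hC, h⟩ := h ε hε
  refine ⟨C + Γ, by positivity, ?_⟩
  intro n Ω _ A D hfam p hp S hsep hang
  have hS : 0 ≤ S := SepM_nonneg hp hsep
  have hN : 0 ≤ Real.log n := Real.log_nonneg (by exact_mod_cast hfam.pos)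
  have h1 := h n Ω A D hfam p hp S hsep hang
  have h2 := aa_le hfam hp
  have h3 : (Γ / d) * aa p ≤ (Γ / d) * (d * (1 + Real.log n)) :=
    mul_le_mul_of_nonneg_left h2 hΓd
  have h4 : (Γ / d) * (d * (1 + Real.log n)) = Γ * (1 + Real.log n) := by
    field_simp
  have hl := lam_nonneg hfam.pos hp
  have h5 : K * lam p ≤ (G * M') * lam p := mul_le_mul_of_nonneg_right hK hl
  have h6 : M' * aa p ≤ β * hred A D p + (G * M') * lam p + ε * Real.log n + (C + Γ) * (1 + S) := by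
    have e : M' * aa p = α * aa p + (Γ / d) * aa p := by rw [hM']; ring
    have e2 : (C + Γ) * (1 + S) = C * (1 + S) + Γ + Γ * S := by ring
    have e3 : 0 ≤ Γ * S := by positivity
    rw [e, e2]
    linarith
  have h7 : aa p = (M' * aa p) / M' := by field_simp
  have h8 : (M' * aa p) / M' ≤
      (β * hred A D p + (G * M') * lam p + ε * Real.log n + (C + Γ) * (1 + S)) / M' :=
    div_le_div_of_nonneg_right h6 hM'0.le
  have h9 : (β * hred A D p + (G * M') * lam p + ε * Real.log n + (C + Γ) * (1 + S)) / M' =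
      β / M' * hred A D p + G * lam p + (ε * Real.log n + (C + Γ) * (1 + S)) / M' := by
    field_simp
    ring
  have h10 : (ε * Real.log n + (C + Γ) * (1 + S)) / M' ≤
      ε * Real.log n + (C + Γ) * (1 + S) := by
    apply div_le_self _ hM'1
    positivity
  rw [h7]
  linarith

/-- The start: the exponent of the hairbrush method. -/
theorem startN {d : ℕ} (hd : 1 ≤ d) : AllN d (2 / (1 + 1 / (d : ℝ))) d := by
  have hd1 : (1 : ℝ) ≤ d := by exact_mod_cast hd
  have hd0 : (0 : ℝ) < d := by linarith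
  have h1 : 1 / (d : ℝ) ≤ 1 := by rw [div_le_one hd0]; exact hd1
  have h2 : 0 ≤ 1 / (d : ℝ) := by positivity
  refine t_extn ?_ le_rfl (stepN hd le_rfl zero_le_one ?_ (coreW d))
  · rw [le_div_iff₀ (by linarith)]
    linarith
  · have e : (d : ℝ) * (1 + 1 / d) = d + 1 := by field_simp
    rw [e]
    linarith

/-- The iteration. -/
theorem iterN {d : ℕ} (hd : 3 ≤ d) {y c : ℝ} (hy : 0 ≤ y) (hc1 : 1 < c)
    (hc : 0 < d * (c ^ 3 - 4 * c + 2) + c * (3 * c - 1 - c ^ 2) + y * ((d + 1) * c - 2 * d))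
    (hK : 3 * c ^ 2 ≤ d * (c ^ 2 - 1) + (d - 1) * y) : AllN d c d := by
  have hdR : (3 : ℝ) ≤ d := by exact_mod_cast hd
  have hd0 : (0 : ℝ) < d := by linarith
  by_contra hno
  set b0 : ℝ := 2 / (1 + 1 / (d : ℝ)) with hb0
  have hinv0 : 0 < 1 / (d : ℝ) := by positivity
  have hinv : 1 / (d : ℝ) < 1 := by rw [div_lt_one hd0]; linarith
  have hb01 : 1 < b0 := by
    rw [hb0, lt_div_iff₀ (by linarith)]
    linarith
  have hb02 : b0 < 2 := by
    rw [hb0, div_lt_iff₀ (by linarith)]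
    linarith
  set I : Set ℝ := {x | 1 < x ∧ AllN d x d} with hI
  have hI0 : b0 ∈ I := ⟨hb01, startN (by omega)⟩
  have hIc : ∀ x ∈ I, c ≤ x := by
    intro x hx
    by_contra hlt
    push Not at hlt
    exact hno (hx.2.mono hlt.le)
  have hbdd : BddBelow I := ⟨c, hIc⟩
  set m : ℝ := sInf I with hm
  have hcm : c ≤ m := le_csInf ⟨_, hI0⟩ hIc
  have hm2 : m < 2 := lt_of_le_of_lt (csInf_le hbdd hI0) hb02
  have hmE : AllN d m d := by
    apply AllN_closed
    intro x hx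
    obtain ⟨z, hz, hzx⟩ := exists_lt_of_csInf_lt ⟨_, hI0⟩ hx
    exact hz.2.mono hzx.le
  have hm1 : 1 < m := by linarith
  set Γ : ℝ := 3 * m - 1 - m ^ 2 with hΓ
  have hΓ0 : 0 < Γ := by rw [hΓ]; nlinarith
  have hΓ1 : Γ ≤ 5 / 4 := by rw [hΓ]; nlinarith [sq_nonneg (m - 3 / 2)]
  have hcore := CoreN.add hy (coreN (d := d) hm1 hm2 hd0.le hmE) (coreW d)
  simp only [mul_one] at hcore
  rw [← hΓ] at hcore
  have hα : 1 ≤ m ^ 2 + 3 * m - 2 + y := by nlinarith
  have hΓy : 0 ≤ Γ + y := by linarith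
  have hstep := stepN (d := d) (G := d) (by omega) hα hΓy (by
    have e : (d : ℝ) * (m ^ 2 + 3 * m - 2 + y + (Γ + y) / d) =
        d * (m ^ 2 + 3 * m - 2 + y) + (Γ + y) := by field_simp
    rw [e, hΓ]
    have h1 : 0 ≤ ((d : ℝ) - 3) * (m ^ 2 - c ^ 2) :=
      mul_nonneg (by linarith) (by nlinarith)
    nlinarith) hcore
  set M' : ℝ := m ^ 2 + 3 * m - 2 + y + (Γ + y) / d with hM'
  have hΓd : 0 ≤ (Γ + y) / d := by positivity
  have hM'0 : 0 < M' := by rw [hM']; linarith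
  have hΓd1 : (Γ + y) / d ≤ 5 / 12 + y := by
    rw [div_le_iff₀ hd0]
    nlinarith
  have h1le : 1 ≤ (3 * m ^ 2 + 2 * m - 2 + y * 2) / M' := by
    rw [le_div_iff₀ hM'0, hM']
    nlinarith
  have hnew : AllN d ((3 * m ^ 2 + 2 * m - 2 + y * 2) / M') d := t_extn h1le le_rfl hstep
  -- the new exponent is not smaller
  have h2 : m ≤ (3 * m ^ 2 + 2 * m - 2 + y * 2) / M' := by
    by_contra hlt
    push Not at hlt
    obtain ⟨z, hz1, hz2⟩ := exists_between (max_lt hlt hm1)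
    have hmem : z ∈ I := ⟨lt_of_le_of_lt (le_max_right _ _) hz1,
      hnew.mono (le_trans (le_max_left _ _) hz1.le)⟩
    exact absurd (csInf_le hbdd hmem) (not_le.2 hz2)
  rw [le_div_iff₀ hM'0, hM'] at h2
  have h3 : d * (m ^ 3 - 4 * m + 2) + m * (3 * m - 1 - m ^ 2) + y * ((d + 1) * m - 2 * d) ≤ 0 := by
    have e1 : d * (m * (m ^ 2 + 3 * m - 2 + y + (Γ + y) / d)) =
        d * (m * (m ^ 2 + 3 * m - 2 + y)) + m * (Γ + y) := by
      field_simp
    have h4 : d * (m * (m ^ 2 + 3 * m - 2 + y + (Γ + y) / d)) ≤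
        d * (3 * m ^ 2 + 2 * m - 2 + y * 2) := mul_le_mul_of_nonneg_left h2 hd0.le
    rw [e1, hΓ] at h4
    linarith
  -- convexity
  have h5 : (c - 1) * (d * (m ^ 3 - 4 * m + 2) + m * (3 * m - 1 - m ^ 2) +
        y * ((d + 1) * m - 2 * d)) - (m - c) * ((d - 1) * (1 + y)) -
      (m - 1) * (d * (c ^ 3 - 4 * c + 2) + c * (3 * c - 1 - c ^ 2) +
        y * ((d + 1) * c - 2 * d)) =
      (m - c) * (c - 1) * (m - 1) * ((d - 1) * (1 + c + m) + 3) := by
    ring
  have h6 : 0 ≤ (m - c) * (c - 1) * (m - 1) * ((d - 1) * (1 + c + m) + 3) := by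
    have a1 : 0 ≤ ((d : ℝ) - 1) * (1 + c + m) := mul_nonneg (by linarith) (by linarith)
    have a2 : 0 ≤ (m - c) * (c - 1) * (m - 1) :=
      mul_nonneg (mul_nonneg (by linarith) (by linarith)) (by linarith)
    exact mul_nonneg a2 (by linarith)
  have h7 : 0 ≤ (m - c) * (((d : ℝ) - 1) * (1 + y)) :=
    mul_nonneg (by linarith) (mul_nonneg (by linarith) (by linarith))
  have h8 : (c - 1) * (d * (m ^ 3 - 4 * m + 2) + m * (3 * m - 1 - m ^ 2) +
        y * ((d + 1) * m - 2 * d)) ≤ 0 :=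
    mul_nonpos_of_nonneg_of_nonpos (by linarith) h3
  have h9 : 0 < (m - 1) * (d * (c ^ 3 - 4 * c + 2) + c * (3 * c - 1 - c ^ 2) +
        y * ((d + 1) * c - 2 * d)) :=
    mul_pos (by linarith) hc
  linarith

end Pool.Agent.NH42
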