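import Pool.Agent.NH42.Stm
import Pool.Agent.Y941.HK.LH
import Pool.Agent.Y925.HK.Ld

/-!
# Localization to intervals of heights and to caps of directions, for the sharp functional
-/

set_option autoImplicit false

open Finset
open scoped Classical

namespace Pool.Agent.NH42
open Pool.Agent.W904.AK Pool.Agent.W46.HD Pool.Agent.W46.HM Pool.Agent.Y244.HM
  Pool.Agent.W597.HD Pool.Agent.Y254HK

section transfer

open Pool.Agent.W305.HM

variable {Ω Ω' : Type} [Fintype Ω] [Fintype Ω'] {d n L a : ℕ} {A D : Ω → Fin d → ℝ}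
  {ι : Ω' → Ω} {φ : Ω × Fin n → Ω' × Fin L} {q : Ω × Fin n → ℝ}

theorem transferN (hq : IsLaw q) (hι : Function.Injective ι)
    (hφ : ∀ z, q z ≠ 0 → ι (φ z).1 = z.1 ∧ (z.2 : ℕ) = a * L + (φ z).2) (b G C : ℝ)
    (O : OrN L (fun w i => A (ι w) i + ((a * L : ℕ) : ℝ) * D (ι w) i) (fun w => D (ι w)) b G C) :
    H q Prod.fst ≤ b * (H q (fun z => (z.2, cell A D z.2 z.1)) - (H q id - H q Prod.fst)) +
      G * (Real.log L - (H q id - H q Prod.fst)) + C := by
  have h := O (im q φ) (hq.im φ)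
  have e1 : H (im q φ) Prod.fst = H q Prod.fst := by
    rw [H_im]
    exact H_congr hq (fun z z' hz hz' h => (fst_eq hι hφ hz hz').1 h)
      (fun z z' hz hz' h => (fst_eq hι hφ hz hz').2 h)
  have e2 : H (im q φ) Prod.snd = H q Prod.snd := by
    rw [H_im]
    exact H_congr hq (fun z z' hz hz' h => (snd_eq hφ hz hz').1 h)
      (fun z z' hz hz' h => (snd_eq hφ hz hz').2 h)
  have e3 : H (im q φ) id = H q id := by
    rw [H_im]
    refine H_congr hq (fun z z' hz hz' h => ?_) (fun z z' hz hz' h => ?_)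
    · simp only [id] at h ⊢
      exact Prod.ext ((fst_eq hι hφ hz hz').1 (congrArg Prod.fst h))
        ((snd_eq hφ hz hz').1 (congrArg Prod.snd h))
    · simp only [id] at h ⊢
      rw [h]
  have e4 : H (im q φ) (fun z => (z.2, cell (fun w i => A (ι w) i + ((a * L : ℕ) : ℝ) * D (ι w) i)
      (fun w => D (ι w)) z.2 z.1)) = H q (fun z => (z.2, cell A D z.2 z.1)) := by
    rw [H_im]
    refine H_congr hq (fun z z' hz hz' h => ?_) (fun z z' hz hz' h => ?_)
    · rw [cell_eq hφ hz, cell_eq hφ hz'] at h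
      have h1 := Prod.ext_iff.1 h
      exact Prod.ext ((snd_eq hφ hz hz').1 h1.1) h1.2
    · rw [cell_eq hφ hz, cell_eq hφ hz']
      have h1 := Prod.ext_iff.1 h
      exact Prod.ext ((snd_eq hφ hz hz').2 h1.1) h1.2
  unfold hred aa hh lam mi at h
  rw [e1, e2, e3, e4] at h
  refine h.trans (le_of_eq ?_)
  ring

end transfer

section LH

open Pool.Agent.W305.HM
open Pool.Agent.Y941.HK (QL H_col)

/-- One label and one colour. -/
theorem one_label {d k : ℕ} {b G M : ℝ}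
    (O : ∀ (Ω : Type) [Fintype Ω] (A D : Ω → Fin d → ℝ), IsFam (2 ^ k) D →
      OrN (2 ^ k) A D b G M)
    {n : ℕ} {Ω : Type} [Fintype Ω] (A D : Ω → Fin d → ℝ) (hF : IsFam n D) (a : ℕ)
    (ρ : Fin d → ℤ) (q : Ω × Fin n → ℝ) (hq : IsLaw q)
    (hsup : ∀ z, q z ≠ 0 → (z.2 : ℕ) / 2 ^ k = a ∧ col n D k z.1 = ρ) :
    H q Prod.fst ≤ b * (H q (fun z => (z.2, cell A D z.2 z.1)) - (H q id - H q Prod.fst)) +
      G * (Real.log ((2 : ℝ) ^ k) - (H q id - H q Prod.fst)) + M := by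
  have hLpos : 0 < 2 ^ k := by positivity
  obtain ⟨z0, hz0⟩ : ∃ z, q z ≠ 0 := by
    by_contra h
    push Not at h
    have := hq.total
    simp [h] at this
  let φ : Ω × Fin n → {ω : Ω // col n D k ω = ρ} × Fin (2 ^ k) := fun z =>
    (if h : col n D k z.1 = ρ then ⟨z.1, h⟩ else ⟨z0.1, (hsup z0 hz0).2⟩,
      ⟨z.2 % 2 ^ k, Nat.mod_lt _ hLpos⟩)
  have hφ : ∀ z, q z ≠ 0 → ((φ z).1 : Ω) = z.1 ∧ (z.2 : ℕ) = a * 2 ^ k + (φ z).2 := by
    intro z hz
    obtain ⟨h1, h2⟩ := hsup z hz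
    constructor
    · simp only [φ]
      rw [dif_pos h2]
    · simp only [φ]
      rw [← h1]
      exact (Nat.div_add_mod' _ _).symm
  have hfam : IsFam (2 ^ k) (fun w : {ω : Ω // col n D k ω = ρ} => D w.1) := by
    refine ⟨hLpos, fun w i => hF.lo w.1 i, fun w i => hF.hi w.1 i, fun w w' h => ?_⟩
    apply Subtype.ext
    apply hF.inj
    intro i
    apply floor_close n (2 ^ k) hLpos _ _ (h i)
    have h1 := congrFun (w.2.trans w'.2.symm) i
    exact h1
  have hO := O {ω : Ω // col n D k ω = ρ}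
    (fun w i => A w.1 i + ((a * 2 ^ k : ℕ) : ℝ) * D w.1 i) (fun w => D w.1) hfam
  have := transferN (A := A) (D := D) hq Subtype.val_injective hφ b G M hO
  rw [Nat.cast_pow, Nat.cast_ofNat] at this
  exact this

/-- All labels. -/
theorem all_labels {d k : ℕ} {b G M : ℝ}
    (O : ∀ (Ω : Type) [Fintype Ω] (A D : Ω → Fin d → ℝ), IsFam (2 ^ k) D →
      OrN (2 ^ k) A D b G M)
    {n : ℕ} {Ω : Type} [Fintype Ω] (A D : Ω → Fin d → ℝ) (hF : IsFam n D)
    (p : Ω × Fin n → ℝ) (hp : IsLaw p) :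
    H p (fun z => (QL D k z, z.1)) - H p (QL D k) ≤
      b * ((H p (fun z => (QL D k z, z.2, cell A D z.2 z.1)) - H p (QL D k)) -
        (H p (fun z => (QL D k z, z.1, z.2)) - H p (fun z => (QL D k z, z.1)))) +
      G * (Real.log ((2 : ℝ) ^ k) -
        (H p (fun z => (QL D k z, z.1, z.2)) - H p (fun z => (QL D k z, z.1)))) + M := by
  have e0 := chain hp (QL (n := n) D k) (fun z => z.1)
  have e1 := chain hp (QL D k) (fun z => (z.2, cell A D z.2 z.1))
  have e3 := chain hp (QL (n := n) D k) (fun z => (z.1, z.2))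
  have key : ∀ x, p x * H (cd p (QL D k) (QL D k x)) (fun z => z.1) ≤
      b * (p x * H (cd p (QL D k) (QL D k x)) (fun z => (z.2, cell A D z.2 z.1)) -
        (p x * H (cd p (QL D k) (QL D k x)) (fun z => (z.1, z.2)) -
        p x * H (cd p (QL D k) (QL D k x)) (fun z => z.1))) +
      (G * (p x * Real.log ((2 : ℝ) ^ k) -
        (p x * H (cd p (QL D k) (QL D k x)) (fun z => (z.1, z.2)) -
        p x * H (cd p (QL D k) (QL D k x)) (fun z => z.1))) + p x * M) := by
    intro x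
    by_cases hx : p x = 0
    · simp [hx]
    · have hP : 0 < im p (QL D k) (QL D k x) := im_pos hp (QL D k) hx
      have hlaw : IsLaw (cd p (QL D k) (QL D k x)) := cd_law hp (QL D k) hP.ne'
      have hcd : ∀ z, cd p (QL D k) (QL D k x) z ≠ 0 → QL D k z = QL D k x := by
        intro z hz
        by_contra hne
        exact hz (if_neg hne)
      have hq1 : ∀ z, cd p (QL D k) (QL D k x) z ≠ 0 →
          (z.2 : ℕ) / 2 ^ k = (x.2 : ℕ) / 2 ^ k ∧ col n D k z.1 = col n D k x.1 := by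
        intro z hz
        have h := hcd z hz
        exact ⟨congrArg Prod.fst h, congrArg Prod.snd h⟩
      have h2 := one_label O A D hF ((x.2 : ℕ) / 2 ^ k) (col n D k x.1)
        (cd p (QL D k) (QL D k x)) hlaw hq1
      have h3 := mul_le_mul_of_nonneg_left h2 (hp.nonneg x)
      have e6 : H (cd p (QL D k) (QL D k x)) (fun z => (z.1, z.2)) =
          H (cd p (QL D k) (QL D k x)) id := rfl
      have e7 : H (cd p (QL D k) (QL D k x)) (fun z => z.1) =
          H (cd p (QL D k) (QL D k x)) Prod.fst := rfl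
      rw [e6, e7]
      refine h3.trans (le_of_eq ?_)
      ring
  have hsum := Finset.sum_le_sum fun x (_ : x ∈ (Finset.univ : Finset (Ω × Fin n))) => key x
  rw [Finset.sum_add_distrib, Finset.sum_add_distrib,
    ← Finset.mul_sum, ← Finset.mul_sum,
    Finset.sum_sub_distrib, Finset.sum_sub_distrib, Finset.sum_sub_distrib,
    Finset.sum_sub_distrib, ← Finset.sum_mul,
    ← Finset.sum_mul, hp.total, ← e0, ← e1, ← e3] at hsum
  refine hsum.trans (le_of_eq ?_)
  ring

/-- Localization to intervals of heights of length `2 ^ k`, one for each line. -/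
theorem t_lhn (d : ℕ) : ∃ C : ℝ, 0 ≤ C ∧ ∀ (b G M : ℝ) (k : ℕ), 1 ≤ b → (d : ℝ) ≤ G →
    (∀ (Ω : Type) [Fintype Ω] (A D : Ω → Fin d → ℝ), IsFam (2 ^ k) D →
      OrN (2 ^ k) A D b G M) →
    ∀ (n : ℕ) (Ω : Type) [Fintype Ω] (A D : Ω → Fin d → ℝ), IsFam n D → 2 ^ k ≤ n →
    ∀ p : Ω × Fin n → ℝ, IsLaw p → (∃ a : Ω → ℕ, ∀ z, p z ≠ 0 → (z.2 : ℕ) / 2 ^ k = a z.1) →
      aa p ≤ b * hred A D p + G * lam p + M + C := by
  refine ⟨2 * d, by positivity, ?_⟩
  intro b G M k hb hG O n Ω _ A D hF hk p hp hsup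
  obtain ⟨a, ha⟩ := hsup
  have h := all_labels O A D hF p hp
  have hcol := H_col hk D p hp
  have a1 : H p (fun z => (QL D k z, z.1, z.2)) = H p id := by
    refine H_congr hp ?_ ?_
    · intro x y _ _ h
      exact congrArg Prod.snd h
    · intro x y _ _ h
      have h' : x = y := h
      rw [h']
  have a2 : H p (fun z => (QL D k z, z.1)) = H p Prod.fst := by
    refine H_congr hp ?_ ?_
    · intro x y _ _ h
      exact congrArg Prod.snd h
    · intro x y hx hy h
      have h' : x.1 = y.1 := h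
      have h1 : (x.2 : ℕ) / 2 ^ k = (y.2 : ℕ) / 2 ^ k := by rw [ha x hx, ha y hy, h']
      show ((((x.2 : ℕ) / 2 ^ k, col n D k x.1), x.1) : (ℕ × (Fin d → ℤ)) × Ω) =
        (((y.2 : ℕ) / 2 ^ k, col n D k y.1), y.1)
      rw [h1, h']
  have a3 : H p (fun z => (QL D k z, z.2, cell A D z.2 z.1)) ≤
      H p (fun z => (z.2, cell A D z.2 z.1)) + H p (fun z => col n D k z.1) := by
    refine subadd hp ?_
    intro x y _ _ h
    have e1 : col n D k x.1 = col n D k y.1 := congrArg (fun u => u.2) h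
    have e2 : x.2 = y.2 := congrArg (fun u => u.1.1) h
    have e3 : cell A D x.2 x.1 = cell A D y.2 y.1 := congrArg (fun u => u.1.2) h
    show ((((x.2 : ℕ) / 2 ^ k, col n D k x.1), x.2, cell A D x.2 x.1) :
      (ℕ × (Fin d → ℤ)) × Fin n × (Fin d → ℤ)) =
        (((y.2 : ℕ) / 2 ^ k, col n D k y.1), y.2, cell A D y.2 y.1)
    rw [e1, e2, ← e3, e2]
  have a4 : H p (fun z => col n D k z.1) ≤ H p (QL D k) :=
    H_mono hp (fun x y _ _ h => congrArg (fun u => u.2) h)
  rw [a1, a2] at h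
  have a6 : Real.log ((2 : ℝ) ^ k) ≤ Real.log n := by
    apply Real.log_le_log (by positivity)
    exact_mod_cast hk
  have a7 : (d : ℝ) * (Real.log n - Real.log ((2 : ℝ) ^ k)) ≤
      G * (Real.log n - Real.log ((2 : ℝ) ^ k)) :=
    mul_le_mul_of_nonneg_right hG (by linarith)
  have b1 := mul_le_mul_of_nonneg_left a3 (by linarith : 0 ≤ b)
  have b2 := mul_le_mul_of_nonneg_left a4 (by linarith : 0 ≤ b - 1)
  unfold hred hh lam aa mi
  nlinarith

end LH

section LD

open Pool.Agent.Y925.HK.Ld (floor_fam kp ep lb)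

theorem avgN {X : Type} [Fintype X] {p : X → ℝ} (hp : IsLaw p) (b d L M : ℝ) (u w e : X → ℝ)
    (h : ∀ x, p x ≠ 0 → e x ≤ b * (u x - (w x - e x)) + d * (L - (w x - e x)) + M) :
    ∑ x, p x * e x ≤ b * (∑ x, p x * u x - (∑ x, p x * w x - ∑ x, p x * e x)) +
      d * (L - (∑ x, p x * w x - ∑ x, p x * e x)) + M := by
  have h1 : ∑ x, p x * e x ≤ ∑ x, p x * (b * (u x - (w x - e x)) + d * (L - (w x - e x)) + M) := by
    refine Finset.sum_le_sum fun x _ => ?_
    by_cases hx : p x = 0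
    · rw [hx, zero_mul, zero_mul]
    · exact mul_le_mul_of_nonneg_left (h x hx) (hp.nonneg x)
  refine h1.trans (le_of_eq ?_)
  have h2 : ∀ x, p x * (b * (u x - (w x - e x)) + d * (L - (w x - e x)) + M) =
      b * (p x * u x) + (d * L + M) * p x - (b + d) * (p x * w x) +
        (b + d) * (p x * e x) := fun x => by ring
  rw [Finset.sum_congr rfl fun x _ => h2 x]
  simp only [Finset.sum_add_distrib, Finset.sum_sub_distrib, ← Finset.mul_sum, hp.total]
  ring

variable {Ω : Type} {d n : ℕ}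

/-- the inequality for one label -/
theorem oneN [Fintype Ω] {b G M : ℝ} {k : ℕ} {A D : Ω → Fin d → ℝ} (hkn : 2 ^ k ≤ n)
    (hO : ∀ (Ω : Type) [Fintype Ω] (A D : Ω → Fin d → ℝ), IsFam ((n + 2 ^ k - 1) / 2 ^ k) D →
      OrN ((n + 2 ^ k - 1) / 2 ^ k) A D b G M) (hF : IsFam n D) {q : Ω × Fin n → ℝ} (hq : IsLaw q)
    (y : ((Fin d → ℤ) × (Fin d → Bool)) × ℕ) (hy : ∀ z, q z ≠ 0 → lb k D z = y) :
    H q Prod.fst ≤ b * (H q (ce A D) - (H q id - H q Prod.fst)) +
      G * (Real.log (((n + 2 ^ k - 1) / 2 ^ k : ℕ) : ℝ) - (H q id - H q Prod.fst)) + M := by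
  set B : ℕ := 2 ^ k with hB
  have hB1 : 1 ≤ B := Nat.one_le_two_pow
  set n' : ℕ := (n + B - 1) / B with hn'
  have hnB : n ≤ n' * B := by
    rw [hn']
    have h1 := Nat.div_add_mod (n + B - 1) B
    have h2 := Nat.mod_lt (n + B - 1) hB1
    rw [mul_comm] at h1
    omega
  have hn1 : 1 ≤ n' := by
    rcases Nat.eq_zero_or_pos n' with h | h
    · rw [h] at hnB
      omega
    · exact h
  have hj' : ∀ j : Fin n, (j : ℕ) / B < n' := fun j => by
    rw [Nat.div_lt_iff_lt_mul hB1]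
    exact lt_of_lt_of_le j.2 hnB
  obtain ⟨z0, hz0⟩ : ∃ z0, q z0 ≠ 0 := by
    by_contra h
    push Not at h
    have := hq.total
    simp [h] at this
  have hz0y := hy z0 hz0
  have hw0 : (kp k D z0.1, ep n D z0.1) = y.1 := congrArg Prod.fst hz0y
  set Ω' : Type := {w : Ω // (kp k D w, ep n D w) = y.1} with hΩ'
  let D' : Ω' → Fin d → ℝ := fun w i => (2 : ℝ) ^ k * D w.1 i - y.1.1 i
  let A' : Ω' → Fin d → ℝ := fun w i => A w.1 i + (y.2 : ℝ) * D w.1 i
  have hfl : ∀ (w : Ω') (i : Fin d), ⌊(2 : ℝ) ^ k * D w.1 i⌋ = y.1.1 i := fun w i =>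
    congrFun (congrArg Prod.fst w.2) i
  have hpar : ∀ (w : Ω') (i : Fin d), decide (⌊(n : ℝ) * D w.1 i⌋ % 2 = 0) = y.1.2 i := fun w i =>
    congrFun (congrArg Prod.snd w.2) i
  have hF' : IsFam n' D' := by
    refine ⟨hn1, fun w i => ?_, fun w i => ?_, fun w w' h => ?_⟩
    · have := Int.floor_le ((2 : ℝ) ^ k * D w.1 i)
      rw [hfl] at this
      show 0 ≤ (2 : ℝ) ^ k * D w.1 i - y.1.1 i
      linarith
    · have := Int.lt_floor_add_one ((2 : ℝ) ^ k * D w.1 i)
      rw [hfl] at this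
      show (2 : ℝ) ^ k * D w.1 i - y.1.1 i ≤ 1
      linarith
    · apply Subtype.ext
      apply hF.inj
      intro i
      have h1 := h i
      have hBR : ((B : ℕ) : ℝ) = (2 : ℝ) ^ k := by rw [hB]; push_cast; rfl
      refine floor_fam hB1 hnB (c := y.1.1 i) ?_ ?_
      · rw [hBR]
        exact h1
      · have h2 := (hpar w i).trans (hpar w' i).symm
        exact decide_eq_decide.1 h2
  let m : Ω × Fin n → Ω' × Fin n' := fun z =>
    (if h : (kp k D z.1, ep n D z.1) = y.1 then ⟨z.1, h⟩ else ⟨z0.1, hw0⟩, ⟨z.2 / B, hj' z.2⟩)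
  have hm1 : ∀ z, q z ≠ 0 → ((m z).1 : Ω) = z.1 := by
    intro z hz
    have h1 : (kp k D z.1, ep n D z.1) = y.1 := congrArg Prod.fst (hy z hz)
    show ((if h : (kp k D z.1, ep n D z.1) = y.1 then (⟨z.1, h⟩ : Ω') else ⟨z0.1, hw0⟩ : Ω') : Ω) = _
    rw [dif_pos h1]
  have hm2 : ∀ z, q z ≠ 0 → ((z.2 : ℕ)) = ((m z).2 : ℕ) * B + y.2 := by
    intro z hz
    have h1 : (z.2 : ℕ) % B = y.2 := congrArg Prod.snd (hy z hz)
    show (z.2 : ℕ) = (z.2 : ℕ) / B * B + y.2
    rw [← h1]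
    exact (Nat.div_add_mod' _ _).symm
  have hcell : ∀ z, q z ≠ 0 → ∀ i, cell A' D' (m z).2 (m z).1 i =
      cell A D z.2 z.1 i - ((m z).2 : ℕ) * y.1.1 i := by
    intro z hz i
    show ⌊A (m z).1 i + (y.2 : ℝ) * D (m z).1 i + (((m z).2 : ℕ) : ℝ) *
      ((2 : ℝ) ^ k * D (m z).1 i - y.1.1 i)⌋ = ⌊A z.1 i + ((z.2 : ℕ) : ℝ) * D z.1 i⌋ - _
    rw [hm1 z hz, ← Int.floor_sub_intCast]
    congr 1
    have h2 : ((z.2 : ℕ) : ℝ) = (((m z).2 : ℕ) : ℝ) * (2 : ℝ) ^ k + (y.2 : ℝ) := by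
      rw [hm2 z hz, hB]
      push_cast
      rfl
    rw [h2]
    push_cast
    ring
  have h0 := hO Ω' A' D' hF' (im q m) (hq.im m)
  unfold hred aa hh lam mi at h0
  simp only [H_im] at h0
  have e1 : H q (fun z => (m z).1) = H q Prod.fst := by
    refine H_congr hq ?_ ?_
    · intro x z hx hz h
      rw [← hm1 x hx, ← hm1 z hz]
      exact congrArg Subtype.val h
    · intro x z hx hz h
      apply Subtype.ext
      rw [hm1 x hx, hm1 z hz]
      exact h
  have hs : ∀ x z, q x ≠ 0 → q z ≠ 0 → (m x).2 = (m z).2 → x.2 = z.2 := by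
    intro x z hx hz h
    apply Fin.ext
    rw [hm2 x hx, hm2 z hz, h]
  have hs' : ∀ x z : Ω × Fin n, x.2 = z.2 → (m x).2 = (m z).2 := by
    intro x z h
    apply Fin.ext
    show (x.2 : ℕ) / B = (z.2 : ℕ) / B
    rw [h]
  have e2 : H q (fun z => (m z).2) = H q Prod.snd := by
    refine H_congr hq ?_ ?_
    · intro x z hx hz h
      exact hs x z hx hz h
    · intro x z hx hz h
      exact hs' x z h
  have e3 : H q (fun z => id (m z)) = H q id := by
    refine H_congr hq ?_ ?_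
    · intro x z hx hz h
      have h' : m x = m z := h
      refine Prod.ext ?_ (hs x z hx hz (congrArg Prod.snd h'))
      show x.1 = z.1
      rw [← hm1 x hx, ← hm1 z hz, h']
    · intro x z hx hz h
      have h' : x = z := h
      show m x = m z
      rw [h']
  have e4 : H q (fun z => ((m z).2, cell A' D' (m z).2 (m z).1)) = H q (ce A D) := by
    refine H_congr hq ?_ ?_
    · intro x z hx hz h
      have h1 : (m x).2 = (m z).2 := congrArg Prod.fst h
      have h2 : cell A' D' (m x).2 (m x).1 = cell A' D' (m z).2 (m z).1 := congrArg Prod.snd h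
      refine Prod.ext (hs x z hx hz h1) ?_
      funext i
      have h3 := congrFun h2 i
      rw [hcell x hx, hcell z hz, h1] at h3
      show cell A D x.2 x.1 i = cell A D z.2 z.1 i
      linarith
    · intro x z hx hz h
      have h1 : x.2 = z.2 := congrArg Prod.fst h
      have h2 : cell A D x.2 x.1 = cell A D z.2 z.1 := congrArg Prod.snd h
      refine Prod.ext (hs' x z h1) ?_
      funext i
      have h3 := congrFun h2 i
      show cell A' D' (m x).2 (m x).1 i = cell A' D' (m z).2 (m z).1 i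
      rw [hcell x hx, hcell z hz, hs' x z h1, h3]
  rw [e1, e2, e3, e4] at h0
  refine h0.trans (le_of_eq ?_)
  ring

/-- Localization to caps of directions of side `2 ^ (-k)`, one for each point. -/
theorem t_ldn (d : ℕ) (b G : ℝ) (hb : 1 ≤ b) (hG : (d : ℝ) ≤ G) : ∃ C : ℝ, 0 ≤ C ∧
    ∀ (M : ℝ) (k n : ℕ), 2 ^ k ≤ n →
    (∀ (Ω : Type) [Fintype Ω] (A D : Ω → Fin d → ℝ), IsFam ((n + 2 ^ k - 1) / 2 ^ k) D →
      OrN ((n + 2 ^ k - 1) / 2 ^ k) A D b G M) →
    ∀ (Ω : Type) [Fintype Ω] (A D : Ω → Fin d → ℝ), IsFam n D →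
    ∀ p : Ω × Fin n → ℝ, IsLaw p →
      (∃ κ : Fin n × (Fin d → ℤ) → Fin d → ℤ, ∀ z, p z ≠ 0 →
        (fun i => ⌊(2 : ℝ) ^ k * D z.1 i⌋) = κ (ce A D z)) →
      aa p ≤ b * hred A D p + G * lam p + M + C := by
  have hd0 : (0 : ℝ) ≤ d := Nat.cast_nonneg d
  have hG0 : (0 : ℝ) ≤ G := hd0.trans hG
  refine ⟨b * d + G, by positivity, ?_⟩
  rintro M k n hkn hO Ω _ A D hF p hp ⟨κ, hκ⟩
  have hn : 1 ≤ n := hF.pos
  have hone : ∀ x, p x ≠ 0 → _ := fun x hx =>
    oneN (A := A) hkn hO hF (cd_law hp (lb k D) (im_pos hp (lb k D) hx).ne') (lb k D x)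
      (fun z hz => by
        by_contra h
        exact hz (by unfold cd; rw [if_neg h]))
  have hsum := avgN hp b G (Real.log (((n + 2 ^ k - 1) / 2 ^ k : ℕ) : ℝ)) M
    (fun x => H (cd p (lb k D) (lb k D x)) (ce A D))
    (fun x => H (cd p (lb k D) (lb k D x)) id)
    (fun x => H (cd p (lb k D) (lb k D x)) Prod.fst) hone
  simp only [← chain hp] at hsum
  -- entropies
  have c1 : H p (fun x => (lb k D x, id x)) = H p id :=
    H_congr hp (fun x y _ _ h => congrArg Prod.snd h)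
      (fun x y _ _ h => by
        have h' : x = y := h
        rw [h'])
  have c2 : H p (fun x => (lb k D x, ce A D x)) ≤ H p (ce A D) + d * Real.log 2 := by
    have h1 : H p (fun x => (lb k D x, ce A D x)) ≤ H p (ce A D) + H p (fun x => ep n D x.1) := by
      refine subadd hp ?_
      intro x y hx hy h
      have h1 : ce A D x = ce A D y := congrArg Prod.fst h
      have h2 : ep n D x.1 = ep n D y.1 := congrArg Prod.snd h
      have h3 : x.2 = y.2 := congrArg Prod.fst h1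
      have h4 : kp k D x.1 = kp k D y.1 := by
        have a1 := hκ x hx
        have a2 := hκ y hy
        rw [h1] at a1
        exact a1.trans a2.symm
      show (((kp k D x.1, ep n D x.1), (x.2 : ℕ) % 2 ^ k), ce A D x) =
        (((kp k D y.1, ep n D y.1), (y.2 : ℕ) % 2 ^ k), ce A D y)
      rw [h1, h2, h3, h4]
    have h2 := H_le_log_card hp (fun x => ep n D x.1) Finset.univ (fun x _ => Finset.mem_univ _)
    rw [Finset.card_univ, Fintype.card_fun, Fintype.card_bool, Fintype.card_fin] at h2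
    push_cast at h2
    rw [Real.log_pow] at h2
    linarith
  have c4 : H p (fun x => (lb k D x, x.1)) ≤ H p Prod.fst + Real.log ((2 ^ k : ℕ) : ℝ) := by
    have h1 : H p (fun x => (lb k D x, x.1)) ≤
        H p Prod.fst + H p (fun x : Ω × Fin n => (x.2 : ℕ) % 2 ^ k) := by
      refine subadd hp ?_
      intro x y hx hy h
      have h1 : x.1 = y.1 := (Prod.ext_iff.1 h).1
      have h2 : (x.2 : ℕ) % 2 ^ k = (y.2 : ℕ) % 2 ^ k := (Prod.ext_iff.1 h).2
      show (((kp k D x.1, ep n D x.1), (x.2 : ℕ) % 2 ^ k), x.1) =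
        (((kp k D y.1, ep n D y.1), (y.2 : ℕ) % 2 ^ k), y.1)
      rw [h1, h2]
    have h2 := H_le_log_card hp (fun x : Ω × Fin n => (x.2 : ℕ) % 2 ^ k) (Finset.range (2 ^ k))
      (fun x _ => Finset.mem_range.2 (Nat.mod_lt _ (by positivity)))
    rw [Finset.card_range] at h2
    linarith
  have c6 : H p (fun x => (lb k D x, x.1)) ≤ H p (lb k D) + H p Prod.fst :=
    subadd hp (fun x y _ _ h => h)
  have c5 : Real.log (((n + 2 ^ k - 1) / 2 ^ k : ℕ) : ℝ) + Real.log ((2 ^ k : ℕ) : ℝ) ≤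
      Real.log n + Real.log 2 := by
    have h1 : (n + 2 ^ k - 1) / 2 ^ k * 2 ^ k ≤ n * 2 := by
      have := Nat.div_mul_le_self (n + 2 ^ k - 1) (2 ^ k)
      omega
    have h2 : 0 < (n + 2 ^ k - 1) / 2 ^ k :=
      Nat.div_pos (by omega) (by positivity)
    have h3 : (0 : ℝ) < (((n + 2 ^ k - 1) / 2 ^ k : ℕ) : ℝ) := by exact_mod_cast h2
    have h4 : (0 : ℝ) < ((2 ^ k : ℕ) : ℝ) := by positivity
    have h5 : (0 : ℝ) < n := by exact_mod_cast hn
    rw [← Real.log_mul h3.ne' h4.ne', ← Real.log_mul h5.ne' (by norm_num)]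
    apply Real.log_le_log (by positivity)
    exact_mod_cast h1
  have hl2 : Real.log 2 ≤ 1 := by
    have := Real.log_two_lt_d9
    linarith
  unfold hred aa hh lam mi
  have e5 : (fun z : Ω × Fin n => (z.2, cell A D z.2 z.1)) = ce A D := rfl
  rw [e5]
  rw [c1] at hsum
  set h0 := H p (Prod.snd : Ω × Fin n → Fin n)
  set h1 := H p (ce A D)
  set hw := H p (Prod.fst : Ω × Fin n → Ω)
  set hi := H p (id : Ω × Fin n → Ω × Fin n)
  set hY := H p (lb (n := n) k D)
  set hwr := H p (fun x => (lb k D x, x.1))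
  set hYc := H p (fun x => (lb k D x, ce A D x))
  set L' := Real.log (((n + 2 ^ k - 1) / 2 ^ k : ℕ) : ℝ)
  have f1 : b * hYc ≤ b * (h1 + d * Real.log 2) := mul_le_mul_of_nonneg_left c2 (by linarith)
  have f2 : (b - 1) * hwr ≤ (b - 1) * (hY + hw) := mul_le_mul_of_nonneg_left c6 (by linarith)
  have f3 : G * (L' + hwr) ≤ G * (Real.log n + Real.log 2 + hw) :=
    mul_le_mul_of_nonneg_left (by linarith) hG0
  have f4 : (b * d + G) * Real.log 2 ≤ (b * d + G) * 1 :=
    mul_le_mul_of_nonneg_left hl2 (by positivity)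
  nlinarith [f1, f2, f3, f4, hsum]

end LD

end Pool.Agent.NH42
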