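import Pool.Agent.NH42.Tube

/-!
# Tubes and the maximal function, without loss
-/

set_option autoImplicit false

open MeasureTheory Set Metric
open scoped ENNReal NNReal

namespace Pool.Agent.NH42
open Pool.Agent.Y254 (mult)
open Pool.Agent.Y254.EL (LF LoB EuF loss_removal allwP_of_LF)
open Pool.Agent.W46.KK (tube)
open Pool.Agent.Y244.HM (WeakP StrongP strongP)
open Pool.Agent.Y244.WR (TubeQ weakQ)

/-- From the oracle with losses at one exponent to Euclidean tubes without loss at larger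
exponents. -/
theorem euF_of_allN {d : ℕ} (hd : 2 ≤ d) {c' c : ℝ} (hc1 : 1 < c') (hcc : c' < c)
    (h : AllN d c' d) : ∃ C : ℝ, 0 < C ∧ EuF d (1 + c / d) C := by
  have hdr : (2 : ℝ) ≤ d := by exact_mod_cast hd
  have hd0 : (0 : ℝ) < d := by linarith
  have hq : 1 + c' / d < 1 + c / d := by gcongr
  have hq0 : 1 + 1 / (d : ℝ) ≤ 1 + c' / d := by gcongr
  set q : ℝ := 1 + c / d with hqd
  rcases lt_or_ge (1 + 2 / ((d + 1 : ℕ) : ℝ)) q with h1 | h1
  · obtain ⟨A, hA, hw⟩ := Pool.Agent.Y254.wolff (n := d + 1) (by omega) h1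
    refine ⟨A, hA, ?_⟩
    intro δ hδ hδ1 ι _ a e he hsep
    have h2 := hw δ hδ hδ1 a e he hsep
    have e1 : (((d + 1 : ℕ) : ℝ) - 1) = d := by push_cast; ring
    rw [e1, Nat.add_sub_cancel] at h2
    exact h2
  · have hq2 : q ≤ 2 := by
      refine h1.trans ?_
      have : 2 / ((d + 1 : ℕ) : ℝ) ≤ 1 := by
        rw [div_le_one (by positivity)]
        push_cast
        linarith
      linarith
    have hLF : ∀ R : ℝ, 1 ≤ R → ∃ C : ℝ, 0 ≤ C ∧ LF d R q C := fun R hR =>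
      loss_removal (by omega) hR hq0 hq hq2 fun ε hε =>
        tubeN (by omega) hc1 h hR hε
    have hq' : 1 + 1 / (d : ℝ) ≤ q := by linarith
    obtain ⟨C, hC, hT⟩ := Pool.Agent.Y244.HM.tubeP (by omega) hq'
      (allwP_of_LF (by omega) hq' hLF)
    refine ⟨C, hC, ?_⟩
    intro δ hδ hδ1 ι _ a e he hsep
    have h2 := hT δ hδ hδ1.le ι a e he hsep
    have e1 : C * δ ^ (d : ℝ) * (Fintype.card ι : ℝ) ^ (q - 1 / (d : ℝ)) =
        C * (δ ^ d * (Fintype.card ι : ℝ) ^ (q - 1 / (d : ℝ))) := by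
      rw [Real.rpow_natCast]; ring
    rw [e1] at h2
    exact h2

/-- Maximal estimates without loss from the oracle with losses. -/
theorem max_of_allN {d : ℕ} (hd : 2 ≤ d) {c' c : ℝ} (hc1 : 1 < c') (hcc : c' < c)
    (h : AllN d c' d) : WeakP d c ∧ StrongP d c := by
  obtain ⟨C, hC, hF⟩ := euF_of_allN hd hc1 hcc h
  have hT : TubeQ d (1 + c / d) := by
    refine ⟨C, hC, ?_⟩
    intro δ hδ hδ1 ι _ a e he hsep
    have h2 := hF δ hδ hδ1 ι a e he hsep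
    have e1 : C * δ ^ (d : ℝ) * (Fintype.card ι : ℝ) ^ (1 + c / (d : ℝ) - 1 / (d : ℝ)) =
        C * (δ ^ d * (Fintype.card ι : ℝ) ^ (1 + c / (d : ℝ) - 1 / (d : ℝ))) := by
      rw [Real.rpow_natCast]; ring
    rw [e1]
    exact h2
  have h1 := weakQ (by omega) (by linarith) hT Pool.Agent.W131.HM.CAP Pool.Agent.W131.HM.VOL
  exact ⟨h1, strongP (by omega) (by linarith) h1⟩

/-- The condition. -/
structure Cn (d : ℕ) (y c : ℝ) : Prop where
  y0 : 0 ≤ y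
  c1 : 1 < c
  g : 0 < d * (c ^ 3 - 4 * c + 2) + c * (3 * c - 1 - c ^ 2) + y * ((d + 1) * c - 2 * d)
  k : 3 * c ^ 2 < d * (c ^ 2 - 1) + (d - 1) * y

theorem Cn.open {d : ℕ} {y c : ℝ} (h : Cn d y c) : ∃ c' : ℝ, c' < c ∧ Cn d y c' := by
  have hcont1 : Continuous fun x : ℝ =>
      (d : ℝ) * (x ^ 3 - 4 * x + 2) + x * (3 * x - 1 - x ^ 2) + y * ((d + 1) * x - 2 * d) := by
    fun_prop
  have hcont2 : Continuous fun x : ℝ => (d : ℝ) * (x ^ 2 - 1) + (d - 1) * y - 3 * x ^ 2 := by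
    fun_prop
  have h1 : ∀ᶠ x in nhdsWithin c (Iio c),
      0 < (d : ℝ) * (x ^ 3 - 4 * x + 2) + x * (3 * x - 1 - x ^ 2) + y * ((d + 1) * x - 2 * d) :=
    (hcont1.continuousAt.eventually (lt_mem_nhds h.g)).filter_mono nhdsWithin_le_nhds
  have h2 : ∀ᶠ x in nhdsWithin c (Iio c), 0 < (d : ℝ) * (x ^ 2 - 1) + (d - 1) * y - 3 * x ^ 2 :=
    (hcont2.continuousAt.eventually (lt_mem_nhds (by linarith [h.k]))).filter_mono
      nhdsWithin_le_nhds
  have h3 : ∀ᶠ x in nhdsWithin c (Iio c), 1 < x :=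
    (lt_mem_nhds h.c1).filter_mono nhdsWithin_le_nhds
  have h4 : ∀ᶠ x in nhdsWithin c (Iio c), x < c := self_mem_nhdsWithin
  obtain ⟨x, a1, a2, a3, a4⟩ := (h1.and (h2.and (h3.and h4))).exists
  exact ⟨x, a4, h.y0, a3, a1, by linarith⟩

/-- Tubes, without loss. -/
theorem tubes_n {d : ℕ} (hd : 3 ≤ d) {y c q : ℝ} (h : Cn d y c) (hq : 1 + c / d ≤ q) :
    ∃ C : ℝ, 0 < C ∧ EuF d q C := by
  have hdR : (3 : ℝ) ≤ d := by exact_mod_cast hd
  have hd0 : (0 : ℝ) < d := by linarith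
  obtain ⟨c', h1, h2⟩ := h.open
  obtain ⟨x, hx⟩ : ∃ x : ℝ, x = (q - 1) * d := ⟨_, rfl⟩
  have hqx : q = 1 + x / d := by rw [hx]; field_simp; ring
  have hcx : c ≤ x := by
    rw [hqx] at hq
    have h1 : c / d ≤ x / d := by linarith
    exact (div_le_div_iff_of_pos_right hd0).1 h1
  rw [hqx]
  exact euF_of_allN (by omega) h2.c1 (lt_of_lt_of_le h1 hcx) (iterN hd h2.y0 h2.c1 h2.g h2.k.le)

/-- Maximal estimates, without loss. -/
theorem max_n {d : ℕ} (hd : 3 ≤ d) {y c : ℝ} (h : Cn d y c) : WeakP d c ∧ StrongP d c := by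
  obtain ⟨c', h1, h2⟩ := h.open
  exact max_of_allN (by omega) h2.c1 h1 (iterN hd h2.y0 h2.c1 h2.g h2.k.le)

end Pool.Agent.NH42
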