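import Pool.Agent.W976.HD.Psi

/-!
# The deficiency of the height controls `psi`, with the sharp constant
-/

set_option autoImplicit false

open Finset
open scoped Classical

namespace Pool.Agent.NH42
open Pool.Agent.W904.AK Pool.Agent.W46.HD Pool.Agent.W976.HD

theorem psi_exp {n i j : ℕ} (hn : 1 ≤ n) :
    Real.exp (psi n i j) = (n : ℝ) / max 1 |(i : ℝ) - (j : ℝ)| := by
  have h0 : (0 : ℝ) < (n : ℝ) / max 1 |(i : ℝ) - (j : ℝ)| := by
    have : (0 : ℝ) < n := by exact_mod_cast hn
    positivity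
  unfold psi
  rw [Real.exp_log h0]

theorem harm (N n : ℕ) (hN : N ≤ n) (hn : 1 ≤ n) :
    ∑ k ∈ Finset.range N, 1 / ((k : ℝ) + 1) ≤ 1 + Real.log n := by
  have h1 : ∑ k ∈ Finset.range N, 1 / ((k : ℝ) + 1) = ((harmonic N : ℚ) : ℝ) := by
    unfold harmonic
    push_cast
    refine Finset.sum_congr rfl fun k _ => ?_
    rw [one_div]
  rw [h1]
  refine (harmonic_le_one_add_log N).trans ?_
  rcases Nat.eq_zero_or_pos N with h0 | h0
  · rw [h0]
    have : (0 : ℝ) ≤ Real.log n := Real.log_nonneg (by exact_mod_cast hn)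
    simpa using this
  · have : Real.log N ≤ Real.log n :=
      Real.log_le_log (by exact_mod_cast h0) (by exact_mod_cast hN)
    linarith

theorem sum_psi_exp (n i : ℕ) (hi : i < n) :
    ∑ j : Fin n, Real.exp (psi n i j) ≤ n * (3 + 2 * Real.log n) := by
  have hn : 1 ≤ n := by omega
  rw [Fin.sum_univ_eq_sum_range (fun j => Real.exp (psi n i j)) n]
  obtain ⟨m, rfl⟩ : ∃ m, n = i + 1 + m := ⟨n - (i + 1), by omega⟩
  rw [Finset.sum_range_add]
  set n : ℕ := i + 1 + m with hn'
  have hn1 : (1 : ℝ) ≤ n := by exact_mod_cast hn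
  have A : ∑ j ∈ Finset.range (i + 1), Real.exp (psi n i j) ≤ n + n * (1 + Real.log n) := by
    rw [← Finset.sum_range_reflect, Finset.sum_range_succ']
    have e0 : Real.exp (psi n i (i + 1 - 1 - 0)) = n := by
      rw [psi_exp hn]
      simp
    have e1 : ∀ k ∈ Finset.range i, Real.exp (psi n i (i + 1 - 1 - (k + 1))) =
        (n : ℝ) * (1 / ((k : ℝ) + 1)) := by
      intro k hk
      rw [Finset.mem_range] at hk
      rw [psi_exp hn]
      have : ((i + 1 - 1 - (k + 1) : ℕ) : ℝ) = i - (k + 1) := by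
        have h : i + 1 - 1 - (k + 1) = i - (k + 1) := by omega
        rw [h, Nat.cast_sub (by omega)]
        push_cast
        ring
      rw [this]
      have h2 : (i : ℝ) - (i - (k + 1)) = k + 1 := by ring
      rw [h2, abs_of_nonneg (by positivity),
        max_eq_right (by linarith [(Nat.cast_nonneg k : (0 : ℝ) ≤ k)])]
      ring
    rw [e0, Finset.sum_congr rfl e1, ← Finset.mul_sum]
    have := mul_le_mul_of_nonneg_left (harm i n (by omega) hn) (by linarith : (0 : ℝ) ≤ n)
    linarith
  have B : ∑ j ∈ Finset.range m, Real.exp (psi n i (i + 1 + j)) ≤ n * (1 + Real.log n) := by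
    have e1 : ∀ k ∈ Finset.range m, Real.exp (psi n i (i + 1 + k)) =
        (n : ℝ) * (1 / ((k : ℝ) + 1)) := by
      intro k _
      rw [psi_exp hn]
      have h2 : (i : ℝ) - ((i + 1 + k : ℕ) : ℝ) = -(k + 1) := by push_cast; ring
      rw [h2, abs_neg, abs_of_nonneg (by positivity),
        max_eq_right (by linarith [(Nat.cast_nonneg k : (0 : ℝ) ≤ k)])]
      ring
    rw [Finset.sum_congr rfl e1, ← Finset.mul_sum]
    exact mul_le_mul_of_nonneg_left (harm m n (by omega) hn) (by linarith : (0 : ℝ) ≤ n)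
  nlinarith

/-- Two conditionally independent heights on a line. -/
theorem psi_le_lam (Ω : Type) [Fintype Ω] (n : ℕ) (p : Ω × Fin n → ℝ) (hn : 1 ≤ n)
    (hp : IsLaw p) :
    ∑ z, glue p p Prod.fst Prod.fst z * psi n z.1.2 z.2.2 ≤
      lam p + Real.log (3 + 2 * Real.log n) := by
  set r := glue p p Prod.fst Prod.fst with hr
  have hl : IsLaw r := glue_law hp hp (fun _ => rfl)
  have hn0 : (0 : ℝ) < n := by exact_mod_cast hn
  have hln : 0 ≤ Real.log n := Real.log_nonneg (by exact_mod_cast hn)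
  set T : ℝ := 3 + 2 * Real.log n with hT
  have hT0 : 0 < T := by linarith
  set m : (Ω × Fin n) × (Ω × Fin n) → ℝ := fun z =>
    if z.1.1 = z.2.1 then p z.1 * (Real.exp (psi n z.1.2 z.2.2) / (n * T)) else 0 with hm
  have m0 : ∀ z, 0 ≤ m z := by
    intro z
    simp only [hm]
    split_ifs
    · have := hp.nonneg z.1
      positivity
    · exact le_rfl
  have m1 : ∀ z, r z ≠ 0 → 0 < m z := by
    intro z hz
    obtain ⟨h0, h1, -⟩ := glue_supp hz
    simp only [hm]
    rw [if_pos h0]
    have : 0 < p z.1 := lt_of_le_of_ne (hp.nonneg _) (Ne.symm h1)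
    positivity
  have m2 : ∑ z, m z ≤ 1 := by
    rw [Fintype.sum_prod_type, ← hp.total]
    refine Finset.sum_le_sum fun x _ => ?_
    rw [Fintype.sum_prod_type]
    have e1 : ∀ w : Ω, ∑ j : Fin n, m (x, (w, j)) =
        if x.1 = w then p x * ((∑ j : Fin n, Real.exp (psi n x.2 j)) / (n * T)) else 0 := by
      intro w
      simp only [hm]
      split_ifs
      · rw [← Finset.mul_sum, ← Finset.sum_div]
      · simp
    rw [Finset.sum_congr rfl fun w _ => e1 w, Finset.sum_ite_eq, if_pos (Finset.mem_univ _)]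
    have h1 := sum_psi_exp n x.2 x.2.2
    have h2 : (∑ j : Fin n, Real.exp (psi n x.2 j)) / (n * T) ≤ 1 := by
      rw [div_le_one (by positivity)]
      exact h1
    have h3 := mul_le_mul_of_nonneg_left h2 (hp.nonneg x)
    linarith
  have G := gibbs hl m m0 m1 m2
  have e1 : ∀ z, r z * -Real.log (m z) = r z * -Real.log (im p id (id z.1)) +
      (r z * Real.log (n * T) - (r z * psi n z.1.2 z.2.2)) := by
    intro z
    by_cases hz : r z = 0
    · rw [hz]; ring
    obtain ⟨h0, h1, -⟩ := glue_supp hz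
    have h2 : 0 < p z.1 := lt_of_le_of_ne (hp.nonneg _) (Ne.symm h1)
    simp only [hm]
    rw [if_pos h0, Real.log_mul h2.ne' (by positivity), Real.log_div (by positivity) (by positivity),
      Real.log_exp, id, im_id]
    ring
  rw [Finset.sum_congr rfl fun z _ => e1 z, Finset.sum_add_distrib, Finset.sum_sub_distrib,
    ← Finset.sum_mul, hl.total] at G
  have a1 : ∀ F : Ω × Fin n → ℝ, ∑ z, r z * F z.1 = ∑ x, p x * F x := by
    intro F
    have := sum_im_mul r Prod.fst F
    rw [hr, glue_fst hp (fun _ => rfl)] at this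
    exact this.symm
  rw [a1 (fun x => -Real.log (im p id (id x)))] at G
  have a2 : ∑ x, p x * -Real.log (im p id (id x)) = H p id := rfl
  rw [a2] at G
  have a3 : H r id = H p id + H p id - H p Prod.fst :=
    H_glue hp hp (fun _ => rfl) (u := id) (v := id) (fun x y _ _ h => congrArg Prod.fst h)
      (fun x y _ _ h => congrArg Prod.fst h)
  rw [a3, Real.log_mul hn0.ne' hT0.ne'] at G
  unfold lam
  linarith

end Pool.Agent.NH42
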