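import Pool.Agent.Y254.HK.StmG

/-!
# The hybrid iteration with a sharp bookkeeping of the deficiency: definitions

The reduced entropy of the points is `hred = hh + mi`, the entropy of (height, cell) minus the
entropy of the height given the line.  All entropies of the configuration are exact expressions
in `aa`, `hred`, `lam` and `log n`.
-/

set_option autoImplicit false

open Finset
open scoped Classical

namespace Pool.Agent.NH42
open Pool.Agent.W904.AK Pool.Agent.W46.HD Pool.Agent.W46.HM Pool.Agent.Y244.HM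
  Pool.Agent.W597.HD Pool.Agent.Y254HK

section Defs

variable {Ω : Type} [Fintype Ω] {d n : ℕ}

/-- Entropy of (height, cell) minus the entropy of the height given the line. -/
noncomputable def hred (A D : Ω → Fin d → ℝ) (p : Ω × Fin n → ℝ) : ℝ := hh A D p + mi p

/-- The oracle in terms of `hred`. -/
def OrN (n : ℕ) (A D : Ω → Fin d → ℝ) (b G C : ℝ) : Prop :=
  ∀ p : Ω × Fin n → ℝ, IsLaw p → aa p ≤ b * hred A D p + G * lam p + C

end Defs

/-- The oracle for all laws, exponent `b`, coefficient `G` of the deficiency, loss `n ^ ε`. -/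
def AllN (d : ℕ) (b G : ℝ) : Prop := ∀ ε : ℝ, 0 < ε → ∃ C : ℝ, 0 ≤ C ∧
    ∀ (n : ℕ) (Ω : Type) [Fintype Ω] (A D : Ω → Fin d → ℝ), IsFam n D →
      OrN n A D b G (ε * Real.log n + C)

/-- The oracle for two-ends, broad laws. -/
def AllBN (d : ℕ) (b G : ℝ) : Prop := ∀ ε : ℝ, 0 < ε → ∃ C : ℝ, 0 ≤ C ∧
    ∀ (n : ℕ) (Ω : Type) [Fintype Ω] (A D : Ω → Fin d → ℝ), IsFam n D →
    ∀ p : Ω × Fin n → ℝ, IsLaw p → ∀ S : ℝ, SepM p S → ang A D p ≤ S →
      aa p ≤ b * hred A D p + G * lam p + ε * Real.log n + C * (1 + S)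

/-- An inequality for two-ends, broad laws. -/
def CoreN (d : ℕ) (α Γ β K : ℝ) : Prop := ∀ ε : ℝ, 0 < ε → ∃ C : ℝ, 0 ≤ C ∧
    ∀ (n : ℕ) (Ω : Type) [Fintype Ω] (A D : Ω → Fin d → ℝ), IsFam n D →
    ∀ p : Ω × Fin n → ℝ, IsLaw p → ∀ S : ℝ, SepM p S → ang A D p ≤ S →
      α * aa p + Γ * Real.log n ≤ β * hred A D p + K * lam p + ε * Real.log n + C * (1 + S)

/-- The functional of the extension. -/
noncomputable def LamN {Ω : Type} [Fintype Ω] {d n : ℕ} (A D : Ω → Fin d → ℝ) (b G : ℝ)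
    (p : Ω × Fin n → ℝ) : ℝ := aa p - b * hred A D p - G * lam p

/-- The conditional oracle. -/
theorem OCN (d n : ℕ) (Ω : Type) [Fintype Ω] (A D : Ω → Fin d → ℝ) (b G C : ℝ)
    (hO : OrN n A D b G C)
    (Θ : Type) [Fintype Θ] (γ : Type) (q : Θ → ℝ) (l : Θ → Ω) (j : Θ → Fin n) (Q : Θ → γ)
    (hq : IsLaw q) :
    H q (fun z => (Q z, l z)) - H q Q ≤
      b * ((H q (fun z => (Q z, j z, cell A D (j z) (l z))) - H q Q) -
        (H q (fun z => (Q z, l z, j z)) - H q (fun z => (Q z, l z)))) +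
      G * (Real.log n - (H q (fun z => (Q z, l z, j z)) - H q (fun z => (Q z, l z)))) + C := by
  have e0 := chain hq Q l
  have e1 := chain hq Q (fun z => (j z, cell A D (j z) (l z)))
  have e3 := chain hq Q (fun z => (l z, j z))
  have key : ∀ x, q x * H (cd q Q (Q x)) l ≤
      b * (q x * H (cd q Q (Q x)) (fun z => (j z, cell A D (j z) (l z))) -
        (q x * H (cd q Q (Q x)) (fun z => (l z, j z)) - q x * H (cd q Q (Q x)) l)) +
      (G * (q x * Real.log n - (q x * H (cd q Q (Q x)) (fun z => (l z, j z)) -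
        q x * H (cd q Q (Q x)) l)) + q x * C) := by
    intro x
    by_cases hx : q x = 0
    · simp [hx]
    · have hlaw : IsLaw (cd q Q (Q x)) := cd_law hq Q (im_pos hq Q hx).ne'
      have h1 := hO (im (cd q Q (Q x)) fun z => (l z, j z)) (hlaw.im _)
      unfold hred aa hh lam mi at h1
      simp only [H_im, id_eq] at h1
      have h2 := mul_le_mul_of_nonneg_left h1 (hq.nonneg x)
      refine h2.trans (le_of_eq ?_)
      ring
  have hsum := Finset.sum_le_sum fun x (_ : x ∈ (Finset.univ : Finset Θ)) => key x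
  rw [Finset.sum_add_distrib, Finset.sum_add_distrib,
    ← Finset.mul_sum, ← Finset.mul_sum,
    Finset.sum_sub_distrib, Finset.sum_sub_distrib, Finset.sum_sub_distrib,
    Finset.sum_sub_distrib, ← Finset.sum_mul,
    ← Finset.sum_mul, hq.total, ← e0, ← e1, ← e3] at hsum
  refine hsum.trans (le_of_eq ?_)
  ring

/-! ### The configuration -/

/-- The configuration of `CfgU` with exact entropies. -/
structure CfgV {Ω : Type} [Fintype Ω] {d n : ℕ} (A D : Ω → Fin d → ℝ) (p : Ω × Fin n → ℝ) (S : ℝ)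
    {Θ : Type} [Fintype Θ] (q : Θ → ℝ) (l1 l2 l3 : Θ → Ω) (s0 s1 t t' τ v : Θ → Fin n) :
    Prop extends CfgU A D p S q l1 l2 l3 s0 s1 t t' τ v where
  k1 : H q l1 = aa p
  k2 : H q l2 = aa p
  k3 : H q l3 = aa p
  j3 : H q (fun z => (l3 z, s0 z)) = aa p + (Real.log n - lam p)
  j2 : H q (fun z => (l2 z, v z)) = aa p + (Real.log n - lam p)
  m3 : 2 * aa p - hred A D p + (Real.log n - lam p) ≤ H q (fun z => (l1 z, l3 z, s0 z))
  m4 : 2 * aa p - hred A D p + 2 * (Real.log n - lam p) ≤ H q (fun z => (l1 z, l3 z, s0 z, s1 z))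
  m5 : 3 * aa p - 2 * hred A D p + 3 * (Real.log n - lam p) ≤
    H q (fun z => (l1 z, l2 z, l3 z, s0 z, s1 z, v z))
  m6 : H q (fun z => (s0 z, v z, cell A D (s0 z) (l1 z), cell A D (v z) (l2 z))) +
      aa p - hred A D p ≤ H q (fun z => (s0 z, v z, cell A D (v z) (l2 z), l3 z))
  es1 : H q (fun z => (s1 z, cell A D (s1 z) (l1 z))) = hred A D p + (Real.log n - lam p)
  et : H q (fun z => (t z, cell A D (t z) (l1 z))) = hred A D p + (Real.log n - lam p)
  et' : H q (fun z => (t' z, cell A D (t' z) (l3 z))) = hred A D p + (Real.log n - lam p)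
  eτ : H q (fun z => (τ z, cell A D (τ z) (l2 z))) = hred A D p + (Real.log n - lam p)
  ev : H q (fun z => (v z, cell A D (v z) (l2 z))) = hred A D p + (Real.log n - lam p)

end Pool.Agent.NH42
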